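import Pool.Agent.TRed.Core
import Pool.Agent.TPair.Core

set_option autoImplicit false

namespace Pool.Agent.TRed

open Finset

variable {V : Type} [Fintype V] [DecidableEq V] {L : Finset V → Prop}

/-- Covering number three: no live set with at most two points. -/
lemma three (hm : Mono L)
    (hp : ∀ I J : Finset V, Disjoint I J → (I ∪ J).Nonempty → Pck L I J)
    (hF : FracL L) (htau : TauGe L ∅ ∅ 3) (hnu : ¬ NuGe L ∅ ∅ 3) (S : Finset V) (hS : L S)
    (hc : S.card ≤ 2) : False := by
  have hbot : ¬ L ∅ := fun h => hnu ⟨fun _ => ∅, fun _ => Finset.disjoint_empty_right _,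
    fun _ => Finset.disjoint_empty_right _, fun _ _ _ => Finset.disjoint_empty_right _,
    fun _ => by simpa using h⟩
  have hSne : S.Nonempty := by
    rw [Finset.nonempty_iff_ne_empty]
    rintro rfl
    exact hbot hS
  obtain ⟨x, hx⟩ := hSne
  have h2 : NuGe L ∅ ∅ 2 := by
    obtain ⟨E, -, -, e3, e4⟩ := hp {x} ∅ (Finset.disjoint_empty_right _) ⟨x, by simp⟩ 2
      (fun X _ _ hX => by
        refine hm _ _ ?_ (htau (insert x X) (Finset.disjoint_empty_right _)
          (Finset.disjoint_empty_right _) (by
            have := Finset.card_insert_le x X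
            omega))
        rw [Finset.empty_union, Finset.insert_eq])
    exact ⟨E, fun _ => Finset.disjoint_empty_right _, fun _ => Finset.disjoint_empty_right _,
      e3, e4⟩
  have hf : Pool.Agent.TPair.LF L := by
    refine ⟨hm, ?_, ?_, hbot⟩
    · intro U hU hUx
      obtain ⟨P, Q, h1, h2', h3, h4, h5⟩ := two hm hp h2 U (fun v => by
        by_cases hv : v ∈ U
        · exact hUx v hv
        · rw [Finset.erase_eq_of_notMem hv]
          exact hU)
      exact ⟨P, Q, h4, h5, h1, h2', h3⟩
    · intro A B D hA hB hD hAB hAD hBD
      apply hnu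
      refine ⟨![A, B, D], fun _ => Finset.disjoint_empty_right _,
        fun _ => Finset.disjoint_empty_right _, ?_, ?_⟩
      · intro i j hij
        fin_cases i <;> fin_cases j
        · exact absurd rfl hij
        · exact hAB
        · exact hAD
        · exact hAB.symm
        · exact absurd rfl hij
        · exact hBD
        · exact hAD.symm
        · exact hBD.symm
        · exact absurd rfl hij
      · intro i
        rw [Finset.union_empty]
        fin_cases i
        · exact hA
        · exact hB
        · exact hD
  rcases Pool.Agent.TPair.cert hf S hS hc with ⟨T, hT, h⟩ | ⟨W, hW, h⟩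
  · have h1 := htau T (Finset.disjoint_empty_right _) (Finset.disjoint_empty_right _) (by omega)
    rw [Finset.empty_union] at h1
    obtain ⟨e, he⟩ := h _ h1
    rw [Finset.mem_inter, Finset.mem_compl] at he
    exact he.1 he.2
  · obtain ⟨ι, hι, F, q, hq0, hqL, hqs, hload⟩ := hF (fun _ => 1) 3 (fun _ => by norm_num)
      (by norm_num) (by
        intro U hU
        rw [Finset.sum_const, nsmul_eq_mul, mul_one]
        by_contra hcon
        push Not at hcon
        apply hU
        have h1 : U.card < 3 := by exact_mod_cast hcon
        have h2 := htau U (Finset.disjoint_empty_right _) (Finset.disjoint_empty_right _) h1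
        rwa [Finset.empty_union] at h2)
    have h1 : ∀ i, 2 * q i ≤ ∑ v ∈ W, (if v ∈ F i then q i else 0) := by
      intro i
      have h0 := hq0 i
      by_cases hi : q i = 0
      · rw [hi]
        simp
      · have h3 := h (F i) (hqL i hi)
        rw [← Finset.sum_filter, Finset.sum_const, nsmul_eq_mul, Finset.filter_mem_eq_inter,
          Finset.inter_comm]
        have h4 : (2 : ℚ) ≤ ((F i ∩ W).card : ℚ) := by exact_mod_cast h3
        exact mul_le_mul_of_nonneg_right h4 h0
    have h2' : ∑ i, 2 * q i ≤ ∑ v ∈ W, ∑ i, (if v ∈ F i then q i else 0) := by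
      rw [Finset.sum_comm]
      exact Finset.sum_le_sum (fun i _ => h1 i)
    have h3 : ∑ v ∈ W, ∑ i, (if v ∈ F i then q i else 0) ≤ ∑ v ∈ W, (1 : ℚ) :=
      Finset.sum_le_sum (fun v _ => hload v)
    rw [Finset.sum_const, hW] at h3
    rw [← Finset.mul_sum] at h2'
    norm_num at h3
    linarith

end Pool.Agent.TRed
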