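import Pool.Agent.TRed.Core

set_option autoImplicit false

namespace Pool.Agent.TRed

open Finset

variable {V : Type} [Fintype V] [DecidableEq V]

/-- The live sets of a family. -/
def LC (C : Finset (Finset V)) (U : Finset V) : Prop := ∃ S ∈ C, S ⊆ U

omit [Fintype V] in
lemma LC.mono (C : Finset (Finset V)) : Mono (LC C) := by
  rintro A B hAB ⟨S, hS, h⟩
  exact ⟨S, hS, h.trans hAB⟩

/-- Every member contains a minimal member. -/
lemma exists_min (C : Finset (Finset V)) (A : Finset V) (hA : A ∈ C) :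
    ∃ B ∈ C.filter (fun A => ∀ B ∈ C, B ⊆ A → B = A), B ⊆ A := by
  obtain ⟨B, hBA, hB⟩ := Finset.exists_le_minimal C hA
  refine ⟨B, Finset.mem_filter.2 ⟨hB.prop, fun E hE hEB => ?_⟩, hBA⟩
  exact Finset.Subset.antisymm hEB (hB.le_of_le hE hEB)

/-- Packing, for the family `M` of minimal members of the minor `(I, J)` of `C`. -/
lemma conv (C : Finset (Finset V)) (I J : Finset V) (hIJ : Disjoint I J)
    (M : Finset (Finset V)) (m1 : ∀ A ∈ M, ∃ S ∈ C, Disjoint S I ∧ A = S \ J)
    (m2 : ∀ S ∈ C, Disjoint S I → ∃ A ∈ M, A ⊆ S \ J) :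
    (∅ ∈ M ∨ ∃ T : Finset V, (∀ S ∈ M, (S ∩ T).Nonempty) ∧
      ∃ P ⊆ M, (∀ A ∈ P, ∀ B ∈ P, A ≠ B → Disjoint A B) ∧ P.card = T.card) ↔
    Pck (LC C) I J := by
  constructor
  · rintro (h | ⟨T, hT, P, hP, hPd, hPc⟩) k htau
    · obtain ⟨S, hS, -, hSJ⟩ := m1 ∅ h
      refine ⟨fun _ => ∅, fun _ => Finset.disjoint_empty_left _,
        fun _ => Finset.disjoint_empty_left _, fun _ _ _ => Finset.disjoint_empty_left _,
        fun _ => ⟨S, hS, ?_⟩⟩
      rw [Finset.empty_union]
      exact Finset.sdiff_eq_empty_iff_subset.1 hSJ.symm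
    · have hk : k ≤ P.card := by
        by_contra hcon
        have h1 : (T ∩ (I ∪ J)ᶜ).card ≤ T.card := Finset.card_le_card Finset.inter_subset_left
        obtain ⟨S, hS, hSX⟩ := htau (T ∩ (I ∪ J)ᶜ) (by
            rw [Finset.disjoint_left]
            intro e he heI
            exact (Finset.mem_compl.1 (Finset.mem_inter.1 he).2) (Finset.mem_union_left _ heI))
          (by
            rw [Finset.disjoint_left]
            intro e he heI
            exact (Finset.mem_compl.1 (Finset.mem_inter.1 he).2) (Finset.mem_union_right _ heI))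
          (by omega)
        have hSI : Disjoint S I := by
          rw [Finset.disjoint_left]
          intro e he heI
          exact (Finset.mem_compl.1 (hSX he)) (Finset.mem_union_left _ heI)
        obtain ⟨A, hA, hAS⟩ := m2 S hS hSI
        obtain ⟨t, ht⟩ := hT A hA
        rw [Finset.mem_inter] at ht
        have h2 := Finset.mem_sdiff.1 (hAS ht.1)
        apply Finset.mem_compl.1 (hSX h2.1)
        rw [Finset.mem_union, Finset.mem_inter, Finset.mem_compl, Finset.mem_union, not_or]
        exact Or.inr ⟨ht.2, fun h => (Finset.disjoint_left.1 hSI) h2.1 h, h2.2⟩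
      have hmem : ∀ i : Fin k, (P.equivFin.symm (Fin.castLE hk i)).1 ∈ P :=
        fun i => (P.equivFin.symm (Fin.castLE hk i)).2
      refine ⟨fun i => (P.equivFin.symm (Fin.castLE hk i)).1, fun i => ?_, fun i => ?_,
        fun i j hij => ?_, fun i => ?_⟩
      · obtain ⟨S, -, hSI, hA⟩ := m1 _ (hP (hmem i))
        show Disjoint (P.equivFin.symm (Fin.castLE hk i)).1 I
        rw [hA]
        exact hSI.mono_left Finset.sdiff_subset
      · obtain ⟨S, -, hSI, hA⟩ := m1 _ (hP (hmem i))
        show Disjoint (P.equivFin.symm (Fin.castLE hk i)).1 J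
        rw [hA]
        exact Finset.sdiff_disjoint
      · apply hPd _ (hmem i) _ (hmem j)
        intro h
        apply hij
        have h1 := P.equivFin.symm.injective (Subtype.ext h)
        exact Fin.castLE_injective hk h1
      · obtain ⟨S, hS, hSI, hA⟩ := m1 _ (hP (hmem i))
        refine ⟨S, hS, ?_⟩
        show S ⊆ (P.equivFin.symm (Fin.castLE hk i)).1 ∪ J
        rw [hA, Finset.sdiff_union_self_eq_union]
        exact Finset.subset_union_left
  · intro hpck
    by_cases hJ : LC C J
    · left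
      obtain ⟨S, hS, hSJ⟩ := hJ
      obtain ⟨A, hA, hAS⟩ := m2 S hS ((hIJ.symm).mono_left hSJ)
      rw [Finset.sdiff_eq_empty_iff_subset.2 hSJ, Finset.subset_empty] at hAS
      rw [← hAS]
      exact hA
    · right
      have hex : ∃ k, ∃ X : Finset V, Disjoint X I ∧ Disjoint X J ∧ X.card = k ∧
          ¬ LC C (I ∪ X)ᶜ := by
        refine ⟨_, (I ∪ J)ᶜ, ?_, ?_, rfl, ?_⟩
        · rw [Finset.disjoint_left]
          intro e he heI
          exact (Finset.mem_compl.1 he) (Finset.mem_union_left _ heI)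
        · rw [Finset.disjoint_left]
          intro e he heI
          exact (Finset.mem_compl.1 he) (Finset.mem_union_right _ heI)
        · intro h
          apply hJ
          refine LC.mono C _ _ ?_ h
          intro e he
          rw [Finset.mem_compl, Finset.mem_union, not_or, Finset.mem_compl, not_not,
            Finset.mem_union] at he
          rcases he.2 with h | h
          · exact absurd h he.1
          · exact h
      classical
      obtain ⟨X, hXI, hXJ, hXc, hX⟩ := Nat.find_spec hex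
      have hmin := fun m hm => Nat.find_min hex (m := m) hm
      set k := Nat.find hex with hk
      obtain ⟨E, hE1, hE2, hE3, hE4⟩ := hpck k (by
        intro Y hY1 hY2 hY3
        by_contra hcon
        exact hmin Y.card hY3 ⟨Y, hY1, hY2, rfl, hcon⟩)
      have hA : ∀ i, ∃ A ∈ M, A ⊆ E i := by
        intro i
        obtain ⟨S, hS, hSE⟩ := hE4 i
        obtain ⟨A, hA, hAS⟩ := m2 S hS (by
          refine Disjoint.mono_left hSE ?_
          rw [Finset.disjoint_union_left]
          exact ⟨hE1 i, hIJ.symm⟩)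
        refine ⟨A, hA, fun e he => ?_⟩
        have h := Finset.mem_sdiff.1 (hAS he)
        rcases Finset.mem_union.1 (hSE h.1) with h' | h'
        · exact h'
        · exact absurd h' h.2
      choose A hAM hAE using hA
      have hAne : ∀ i, (A i).Nonempty := by
        intro i
        rw [Finset.nonempty_iff_ne_empty]
        intro h
        obtain ⟨S, hS, -, hSJ⟩ := m1 _ (hAM i)
        rw [h] at hSJ
        exact hJ ⟨S, hS, Finset.sdiff_eq_empty_iff_subset.1 hSJ.symm⟩
      have hAd : ∀ i j, i ≠ j → Disjoint (A i) (A j) := fun i j hij =>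
        (hE3 i j hij).mono (hAE i) (hAE j)
      have hinj : Function.Injective A := by
        intro i j hij
        by_contra hne
        have h := hAd i j hne
        rw [hij, disjoint_self] at h
        exact (hAne j).ne_empty h
      refine ⟨X, ?_, Finset.univ.image A, ?_, ?_, ?_⟩
      · intro B hB
        obtain ⟨S, hS, hSI, hBS⟩ := m1 B hB
        by_contra hcon
        rw [Finset.not_nonempty_iff_eq_empty] at hcon
        apply hX
        refine ⟨S, hS, fun e he => ?_⟩
        rw [Finset.mem_compl, Finset.mem_union, not_or]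
        refine ⟨(Finset.disjoint_left.1 hSI) he, fun heX => ?_⟩
        have h1 : e ∈ B ∩ X := by
          rw [Finset.mem_inter, hBS, Finset.mem_sdiff]
          exact ⟨⟨he, (Finset.disjoint_left.1 hXJ) heX⟩, heX⟩
        rw [hcon] at h1
        exact Finset.notMem_empty _ h1
      · intro B hB
        obtain ⟨i, -, rfl⟩ := Finset.mem_image.1 hB
        exact hAM i
      · intro B hB D hD hBD
        obtain ⟨i, -, rfl⟩ := Finset.mem_image.1 hB
        obtain ⟨j, -, rfl⟩ := Finset.mem_image.1 hD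
        exact hAd i j (fun h => hBD (by rw [h]))
      · rw [Finset.card_image_of_injective _ hinj, Finset.card_univ, Fintype.card_fin, hXc]

section transfer

variable {W : Type} [Fintype W] [DecidableEq W] (L : Finset V → Prop) (I J : Finset V)
  (φ : W ↪ V)

/-- The minor `(I, J)` of `L` on the ground set `W`. -/
def LN (U : Finset W) : Prop := L (U.map φ ∪ J)

omit [Fintype V] [Fintype W] [DecidableEq W] in
lemma LN.mono (hm : Mono L) : Mono (LN L J φ) := by
  intro A B hAB h
  exact hm _ _ (Finset.union_subset_union (Finset.map_subset_map.2 hAB) (Finset.Subset.refl _)) h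

variable {I J φ}

lemma compl_map (hIJ : Disjoint I J) (hφ : ∀ v, (∃ u, φ u = v) ↔ v ∉ I ∪ J) (S : Finset W) :
    (I ∪ S.map φ)ᶜ = Sᶜ.map φ ∪ J := by
  ext v
  rw [Finset.mem_compl, Finset.mem_union, Finset.mem_union, not_or, Finset.mem_map,
    Finset.mem_map]
  constructor
  · rintro ⟨h1, h2⟩
    by_cases hJ : v ∈ J
    · exact Or.inr hJ
    · obtain ⟨u, rfl⟩ := (hφ v).2 (by rw [Finset.mem_union, not_or]; exact ⟨h1, hJ⟩)
      exact Or.inl ⟨u, Finset.mem_compl.2 (fun h => h2 ⟨u, h, rfl⟩), rfl⟩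
  · rintro (⟨u, hu, rfl⟩ | h)
    · have h1 := (hφ (φ u)).1 ⟨u, rfl⟩
      rw [Finset.mem_union, not_or] at h1
      refine ⟨h1.1, ?_⟩
      rintro ⟨u', hu', h2⟩
      rw [φ.injective h2] at hu'
      exact (Finset.mem_compl.1 hu) hu'
    · refine ⟨(Finset.disjoint_right.1 hIJ) h, ?_⟩
      rintro ⟨u, -, rfl⟩
      exact ((hφ (φ u)).1 ⟨u, rfl⟩) (Finset.mem_union_right _ h)

lemma pre_map (hφ : ∀ v, (∃ u, φ u = v) ↔ v ∉ I ∪ J) (X : Finset V) (hXI : Disjoint X I)
    (hXJ : Disjoint X J) : ∃ X' : Finset W, X'.map φ = X := by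
  refine ⟨Finset.univ.filter (fun u => φ u ∈ X), ?_⟩
  ext v
  simp only [Finset.mem_map, Finset.mem_filter, Finset.mem_univ, true_and]
  constructor
  · rintro ⟨u, hu, rfl⟩
    exact hu
  · intro hv
    obtain ⟨u, rfl⟩ := (hφ v).2 (by
      rw [Finset.mem_union, not_or]
      exact ⟨(Finset.disjoint_left.1 hXI) hv, (Finset.disjoint_left.1 hXJ) hv⟩)
    exact ⟨u, hv, rfl⟩

lemma map_disj (hφ : ∀ v, (∃ u, φ u = v) ↔ v ∉ I ∪ J) (A : Finset W) :
    Disjoint (A.map φ) I ∧ Disjoint (A.map φ) J := by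
  constructor
  · rw [Finset.disjoint_left]
    intro e he h
    obtain ⟨u, -, rfl⟩ := Finset.mem_map.1 he
    exact ((hφ (φ u)).1 ⟨u, rfl⟩) (Finset.mem_union_left _ h)
  · rw [Finset.disjoint_left]
    intro e he h
    obtain ⟨u, -, rfl⟩ := Finset.mem_map.1 he
    exact ((hφ (φ u)).1 ⟨u, rfl⟩) (Finset.mem_union_right _ h)

lemma tau_transfer (hIJ : Disjoint I J) (hφ : ∀ v, (∃ u, φ u = v) ↔ v ∉ I ∪ J)
    (I1 J1 : Finset W) (k : ℕ) :
    TauGe L (I ∪ I1.map φ) (J ∪ J1.map φ) k ↔ TauGe (LN L J φ) I1 J1 k := by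
  constructor
  · intro h X hX1 hX2 hX3
    have h1 := h (X.map φ) (by
      rw [Finset.disjoint_union_right]
      exact ⟨(map_disj hφ X).1, (Finset.disjoint_map φ).2 hX1⟩) (by
      rw [Finset.disjoint_union_right]
      exact ⟨(map_disj hφ X).2, (Finset.disjoint_map φ).2 hX2⟩) (by
      rw [Finset.card_map]
      exact hX3)
    rw [Finset.union_assoc, ← Finset.map_union, compl_map hIJ hφ] at h1
    exact h1
  · intro h X hX1 hX2 hX3
    rw [Finset.disjoint_union_right] at hX1 hX2
    obtain ⟨X', rfl⟩ := pre_map hφ X hX1.1 hX2.1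
    rw [Finset.union_assoc, ← Finset.map_union, compl_map hIJ hφ]
    exact h X' ((Finset.disjoint_map φ).1 hX1.2) ((Finset.disjoint_map φ).1 hX2.2)
      (by rwa [Finset.card_map] at hX3)

lemma nu_transfer (hφ : ∀ v, (∃ u, φ u = v) ↔ v ∉ I ∪ J)
    (I1 J1 : Finset W) (k : ℕ) :
    NuGe L (I ∪ I1.map φ) (J ∪ J1.map φ) k ↔ NuGe (LN L J φ) I1 J1 k := by
  constructor
  · rintro ⟨E, h1, h2, h3, h4⟩
    have hpre : ∀ i, ∃ X' : Finset W, X'.map φ = E i := fun i =>
      pre_map hφ (E i) ((Finset.disjoint_union_right.1 (h1 i)).1)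
        ((Finset.disjoint_union_right.1 (h2 i)).1)
    choose E' hE' using hpre
    refine ⟨E', fun i => ?_, fun i => ?_, fun i j hij => ?_, fun i => ?_⟩
    · apply (Finset.disjoint_map φ).1
      rw [hE']
      exact (Finset.disjoint_union_right.1 (h1 i)).2
    · apply (Finset.disjoint_map φ).1
      rw [hE']
      exact (Finset.disjoint_union_right.1 (h2 i)).2
    · apply (Finset.disjoint_map φ).1
      rw [hE', hE']
      exact h3 i j hij
    · show L ((E' i ∪ J1).map φ ∪ J)
      rw [Finset.map_union, hE', Finset.union_assoc, Finset.union_comm (J1.map φ)]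
      exact h4 i
  · rintro ⟨E, h1, h2, h3, h4⟩
    refine ⟨fun i => (E i).map φ, fun i => ?_, fun i => ?_, fun i j hij => ?_, fun i => ?_⟩
    · rw [Finset.disjoint_union_right]
      exact ⟨(map_disj hφ _).1, (Finset.disjoint_map φ).2 (h1 i)⟩
    · rw [Finset.disjoint_union_right]
      exact ⟨(map_disj hφ _).2, (Finset.disjoint_map φ).2 (h2 i)⟩
    · exact (Finset.disjoint_map φ).2 (h3 i j hij)
    · have h : L ((E i ∪ J1).map φ ∪ J) := h4 i
      rw [Finset.map_union, Finset.union_assoc, Finset.union_comm (J1.map φ)] at h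
      exact h

lemma pck_transfer (hIJ : Disjoint I J) (hφ : ∀ v, (∃ u, φ u = v) ↔ v ∉ I ∪ J)
    (I1 J1 : Finset W) :
    Pck L (I ∪ I1.map φ) (J ∪ J1.map φ) ↔ Pck (LN L J φ) I1 J1 := by
  constructor
  · intro h k hk
    exact (nu_transfer L hφ I1 J1 k).1 (h k ((tau_transfer L hIJ hφ I1 J1 k).2 hk))
  · intro h k hk
    exact (nu_transfer L hφ I1 J1 k).2 (h k ((tau_transfer L hIJ hφ I1 J1 k).1 hk))

lemma frac_transfer (hm : Mono L) (hIJ : Disjoint I J)
    (hφ : ∀ v, (∃ u, φ u = v) ↔ v ∉ I ∪ J) (hF : FracL L) : FracL (LN L J φ) := by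
  intro w s hw hs hcov
  have hchoose : ∀ v : V, ∃ r : ℚ, 0 ≤ r ∧ (∀ u, φ u = v → r = w u) ∧ (v ∈ I → r = 0) ∧
      (v ∈ J → r = s) := by
    intro v
    by_cases hI : v ∈ I
    · refine ⟨0, le_refl 0, fun u hu => ?_, fun _ => rfl, fun h => ?_⟩
      · exact absurd (Finset.mem_union_left J hI) ((hφ v).1 ⟨u, hu⟩)
      · exact absurd h ((Finset.disjoint_left.1 hIJ) hI)
    · by_cases hJ : v ∈ J
      · refine ⟨s, hs, fun u hu => ?_, fun h => absurd h hI, fun _ => rfl⟩
        exact absurd (Finset.mem_union_right I hJ) ((hφ v).1 ⟨u, hu⟩)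
      · obtain ⟨u, hu⟩ := (hφ v).2 (by rw [Finset.mem_union, not_or]; exact ⟨hI, hJ⟩)
        refine ⟨w u, hw u, fun u' hu' => ?_, fun h => absurd h hI, fun h => absurd h hJ⟩
        rw [φ.injective (hu.trans hu'.symm)]
  choose w' hw0 hwφ hwI hwJ using hchoose
  obtain ⟨ι, hι, F, q, hq0, hqL, hqs, hload⟩ := hF w' s hw0 hs (by
    intro U hU
    by_cases hUJ : ∃ j ∈ U, j ∈ J
    · obtain ⟨j, hjU, hj⟩ := hUJ
      have h := Finset.single_le_sum (f := w') (fun v _ => hw0 v) hjU
      rw [hwJ j hj] at h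
      exact h
    · push Not at hUJ
      have hsub : (Finset.univ.filter (fun u => φ u ∈ U)).map φ ⊆ U := by
        intro e he
        obtain ⟨u, hu, rfl⟩ := Finset.mem_map.1 he
        exact (Finset.mem_filter.1 hu).2
      have h1 : s ≤ ∑ u ∈ Finset.univ.filter (fun u => φ u ∈ U), w u := by
        apply hcov
        intro h
        apply hU
        refine hm _ _ ?_ h
        intro e he
        rw [Finset.mem_compl]
        rcases Finset.mem_union.1 he with h' | h'
        · obtain ⟨u, hu, rfl⟩ := Finset.mem_map.1 h'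
          intro hcon
          exact (Finset.mem_compl.1 hu) (Finset.mem_filter.2 ⟨Finset.mem_univ _, hcon⟩)
        · exact fun hcon => hUJ e hcon h'
      have h2 : ∑ u ∈ Finset.univ.filter (fun u => φ u ∈ U), w u =
          ∑ v ∈ (Finset.univ.filter (fun u => φ u ∈ U)).map φ, w' v := by
        rw [Finset.sum_map]
        exact Finset.sum_congr rfl (fun u _ => (hwφ (φ u) u rfl).symm)
      rw [h2] at h1
      exact h1.trans (Finset.sum_le_sum_of_subset_of_nonneg hsub (fun v _ _ => hw0 v)))
  refine ⟨ι, hι, fun i => Finset.univ.filter (fun u => φ u ∈ F i), q, hq0, fun i hi => ?_, hqs,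
    fun u => ?_⟩
  · refine hm _ _ ?_ (hqL i hi)
    intro e he
    by_cases hI : e ∈ I
    · exfalso
      have h := hload e
      rw [hwI e hI] at h
      have h2 : (if e ∈ F i then q i else 0) ≤ ∑ i, (if e ∈ F i then q i else 0) :=
        Finset.single_le_sum (f := fun i => if e ∈ F i then q i else 0)
          (fun j _ => by
            show 0 ≤ (if e ∈ F j then q j else 0)
            split_ifs
            · exact hq0 j
            · exact le_refl 0) (Finset.mem_univ i)
      rw [if_pos he] at h2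
      exact hi (le_antisymm (h2.trans h) (hq0 i))
    · rw [Finset.mem_union]
      by_cases hJ : e ∈ J
      · exact Or.inr hJ
      · obtain ⟨u, rfl⟩ := (hφ e).2 (by rw [Finset.mem_union, not_or]; exact ⟨hI, hJ⟩)
        exact Or.inl (Finset.mem_map.2 ⟨u, Finset.mem_filter.2 ⟨Finset.mem_univ _, he⟩, rfl⟩)
  · have h := hload (φ u)
    rw [hwφ (φ u) u rfl] at h
    simpa using h

end transfer

end Pool.Agent.TRed
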