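import Pool.Agent.TRed.Rule

set_option autoImplicit false

namespace Pool.Agent.TRed

open Finset

variable {V : Type} [Fintype V] [DecidableEq V] {L : Finset V → Prop} {x y : V}

/-- The weight used in case C. -/
def wt (x y : V) (I J : Finset V) (v : V) : ℚ :=
  if v ∈ J.erase y then 4 else if v = x ∨ v = y then 2 else if v ∈ I then 0 else 1

lemma wt_nonneg (x y : V) (I J : Finset V) (v : V) : 0 ≤ wt x y I J v := by
  unfold wt
  split_ifs <;> norm_num

/-- Covers have weight at least four. -/
lemma wt_cover (hm : Mono L) (hxy : L {x, y}) (I J : Finset V) (hx : x ∈ I) (hy : y ∈ J)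
    (hIJ : Disjoint I J) (hT : TauGe (Mrg L x y) I J 2) (U : Finset V) (hU : ¬ L Uᶜ) :
    4 ≤ ∑ v ∈ U, wt x y I J v := by
  have hyI : y ∉ I := fun h => (Finset.disjoint_left.1 hIJ) h hy
  have hxJ : x ∉ J := fun h => (Finset.disjoint_left.1 hIJ) hx h
  have hne : x ≠ y := fun h => hyI (h ▸ hx)
  have hT0 := hT ∅ (Finset.disjoint_empty_left _) (Finset.disjoint_empty_left _) (by simp)
  have hT1 : ∀ v, v ∉ I ∪ J → Mrg L x y (I ∪ {v})ᶜ := by
    intro v hv
    rw [Finset.mem_union, not_or] at hv
    exact hT {v} (by simpa using hv.1) (by simpa using hv.2) (by simp)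
  have hsum : ∀ R : Finset V, R ⊆ U → ∑ v ∈ R, wt x y I J v ≤ ∑ v ∈ U, wt x y I J v :=
    fun R hR => Finset.sum_le_sum_of_subset_of_nonneg hR (fun v _ _ => wt_nonneg x y I J v)
  have hwx : wt x y I J x = 2 := by
    unfold wt
    rw [if_neg (fun h => hxJ (Finset.mem_of_mem_erase h)), if_pos (Or.inl rfl)]
  have hwy : wt x y I J y = 2 := by
    unfold wt
    rw [if_neg (Finset.notMem_erase y J), if_pos (Or.inr rfl)]
  have hw1 : ∀ v, v ∉ I ∪ J → wt x y I J v = 1 := by
    intro v hv
    rw [Finset.mem_union, not_or] at hv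
    unfold wt
    rw [if_neg (fun h => hv.2 (Finset.mem_of_mem_erase h)), if_neg, if_neg hv.1]
    rintro (h | h)
    · exact hv.1 (h ▸ hx)
    · exact hv.2 (h ▸ hy)
  by_cases hJ : ∃ j ∈ U, j ∈ J.erase y
  · obtain ⟨j, hjU, hj⟩ := hJ
    have h := hsum {j} (Finset.singleton_subset_iff.2 hjU)
    rw [Finset.sum_singleton] at h
    have hwj : wt x y I J j = 4 := by
      unfold wt
      rw [if_pos hj]
    rw [hwj] at h
    exact h
  push Not at hJ
  -- two points of `U` outside `I ∪ J`
  have key : ∀ z, z ∈ U → wt x y I J z = 2 → z ∈ I ∪ J →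
      ((U ∩ (I ∪ J)ᶜ) = ∅ → L Uᶜ) → (∀ c, c ∉ I ∪ J → (U ∩ (I ∪ J)ᶜ) = {c} → L Uᶜ) →
      4 ≤ ∑ v ∈ U, wt x y I J v := by
    intro z hz hwz hzI h0 h1
    have hc : ¬ (U ∩ (I ∪ J)ᶜ).card < 2 := by
      intro hlt
      rcases card_lt_two _ hlt with h | ⟨c, h⟩
      · exact hU (h0 h)
      · refine hU (h1 c ?_ h)
        have hcm : c ∈ U ∩ (I ∪ J)ᶜ := by rw [h]; exact Finset.mem_singleton_self c
        exact Finset.mem_compl.1 (Finset.mem_inter.1 hcm).2
    obtain ⟨a, ha, b, hb, hab⟩ := Finset.one_lt_card.1 (by omega : 1 < (U ∩ (I ∪ J)ᶜ).card)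
    rw [Finset.mem_inter, Finset.mem_compl] at ha hb
    have h := hsum {z, a, b} (by
      intro e he
      simp only [Finset.mem_insert, Finset.mem_singleton] at he
      rcases he with rfl | rfl | rfl
      · exact hz
      · exact ha.1
      · exact hb.1)
    rw [Finset.sum_insert, Finset.sum_insert, Finset.sum_singleton, hwz, hw1 a ha.2,
      hw1 b hb.2] at h
    · linarith
    · simpa using hab
    · simp only [Finset.mem_insert, Finset.mem_singleton, not_or]
      exact ⟨fun h => ha.2 (h ▸ hzI), fun h => hb.2 (h ▸ hzI)⟩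
  by_cases hxU : x ∈ U
  · by_cases hyU : y ∈ U
    · have h := hsum {x, y} (by
        intro e he
        simp only [Finset.mem_insert, Finset.mem_singleton] at he
        rcases he with rfl | rfl
        · exact hxU
        · exact hyU)
      rw [Finset.sum_pair hne, hwx, hwy] at h
      linarith
    · refine key x hxU hwx (Finset.mem_union_left _ hx) (fun h => ?_) (fun c hc h => ?_)
      · refine hm _ _ ?_ hT0.1
        intro e he
        simp only [Finset.union_empty, Finset.mem_erase, Finset.mem_compl] at he
        rw [Finset.mem_compl]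
        intro heU
        have h' : e ∈ U ∩ (I ∪ J)ᶜ := by
          rw [Finset.mem_inter, Finset.mem_compl, Finset.mem_union, not_or]
          refine ⟨heU, he.2, fun heJ => hJ e heU (Finset.mem_erase.2 ⟨fun h => hyU (h ▸ heU), heJ⟩)⟩
        rw [h] at h'
        exact Finset.notMem_empty _ h'
      · refine hm _ _ ?_ (hT1 c hc).1
        intro e he
        simp only [Finset.mem_erase, Finset.mem_compl, Finset.mem_union, Finset.mem_singleton,
          not_or] at he
        rw [Finset.mem_compl]
        intro heU
        have h' : e ∈ U ∩ (I ∪ J)ᶜ := by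
          rw [Finset.mem_inter, Finset.mem_compl, Finset.mem_union, not_or]
          refine ⟨heU, he.2.1,
            fun heJ => hJ e heU (Finset.mem_erase.2 ⟨fun h => hyU (h ▸ heU), heJ⟩)⟩
        rw [h, Finset.mem_singleton] at h'
        exact he.2.2 h'
  · by_cases hyU : y ∈ U
    · refine key y hyU hwy (Finset.mem_union_right _ hy) (fun h => ?_) (fun c hc h => ?_)
      · refine hm _ _ ?_ (hT0.2 (by simpa using hyI))
        intro e he
        simp only [Finset.union_empty, Finset.mem_erase, Finset.mem_insert,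
          Finset.mem_compl] at he
        rw [Finset.mem_compl]
        intro heU
        rcases he.2 with rfl | heI
        · exact hxU heU
        · have h' : e ∈ U ∩ (I ∪ J)ᶜ := by
            rw [Finset.mem_inter, Finset.mem_compl, Finset.mem_union, not_or]
            refine ⟨heU, heI, fun heJ => hJ e heU (Finset.mem_erase.2 ⟨he.1, heJ⟩)⟩
          rw [h] at h'
          exact Finset.notMem_empty _ h'
      · have hcy : c ≠ y := fun h => hc (h ▸ Finset.mem_union_right _ hy)
        refine hm _ _ ?_ ((hT1 c hc).2 (by simp [hyI, Ne.symm hcy]))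
        intro e he
        simp only [Finset.mem_erase, Finset.mem_insert, Finset.mem_compl, Finset.mem_union,
          Finset.mem_singleton, not_or] at he
        rw [Finset.mem_compl]
        intro heU
        rcases he.2 with rfl | heI
        · exact hxU heU
        · have h' : e ∈ U ∩ (I ∪ J)ᶜ := by
            rw [Finset.mem_inter, Finset.mem_compl, Finset.mem_union, not_or]
            refine ⟨heU, heI.1, fun heJ => hJ e heU (Finset.mem_erase.2 ⟨he.1, heJ⟩)⟩
          rw [h, Finset.mem_singleton] at h'
          exact heI.2 h'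
    · exfalso
      apply hU
      refine hm _ _ ?_ hxy
      intro e he
      simp only [Finset.mem_insert, Finset.mem_singleton] at he
      rw [Finset.mem_compl]
      rcases he with rfl | rfl
      · exact hxU
      · exact hyU

end Pool.Agent.TRed
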