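import Pool.Agent.TRed.CaseC

set_option autoImplicit false

namespace Pool.Agent.TRed

open Finset

variable {V : Type} [Fintype V] [DecidableEq V] {L : Finset V → Prop} {x y : V}

/-- What the fractional packing gives. -/
lemma frac_facts (hm : Mono L) (hxy : L {x, y}) (hF : FracL L) (I J : Finset V) (hx : x ∈ I)
    (hy : y ∈ J) (hIJ : Disjoint I J) (hdead : ¬ L (I ∪ {y})ᶜ)
    (hT : TauGe (Mrg L x y) I J 2) :
    ∃ (ι : Type) (_ : Fintype ι) (F : ι → Finset V) (q : ι → ℚ), (∀ i, 0 ≤ q i) ∧
      (∀ i, q i ≠ 0 → L (F i) ∧ Disjoint (F i) (I.erase x) ∧ (x ∈ F i ↔ y ∉ F i)) ∧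
      ∑ i, (if x ∈ F i then q i else 0) = 2 ∧ ∑ i, (if y ∈ F i then q i else 0) = 2 ∧
      ∀ v, v ∉ I ∪ J → ∑ i, (if v ∈ F i then q i else 0) ≤ 1 := by
  have hyI : y ∉ I := fun h => (Finset.disjoint_left.1 hIJ) h hy
  have hxJ : x ∉ J := fun h => (Finset.disjoint_left.1 hIJ) hx h
  obtain ⟨ι, hι, F, q, hq0, hqL, hq4, hload⟩ := hF (wt x y I J) 4 (wt_nonneg x y I J)
    (by norm_num) (fun U hU => wt_cover hm hxy I J hx hy hIJ hT U hU)
  have hwx : wt x y I J x = 2 := by
    unfold wt
    rw [if_neg (fun h => hxJ (Finset.mem_of_mem_erase h)), if_pos (Or.inl rfl)]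
  have hwy : wt x y I J y = 2 := by
    unfold wt
    rw [if_neg (Finset.notMem_erase y J), if_pos (Or.inr rfl)]
  have hw1 : ∀ v, v ∉ I ∪ J → wt x y I J v = 1 := by
    intro v hv
    rw [Finset.mem_union, not_or] at hv
    unfold wt
    rw [if_neg (fun h => hv.2 (Finset.mem_of_mem_erase h)), if_neg, if_neg hv.1]
    rintro (h | h)
    · exact hv.1 (h ▸ hx)
    · exact hv.2 (h ▸ hy)
  have hlx := hload x
  have hly := hload y
  rw [hwx] at hlx
  rw [hwy] at hly
  -- (a)
  have ha : ∀ i, q i ≠ 0 → Disjoint (F i) (I.erase x) := by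
    intro i hi
    rw [Finset.disjoint_left]
    intro e he heI
    rw [Finset.mem_erase] at heI
    have hwe : wt x y I J e = 0 := by
      unfold wt
      rw [if_neg, if_neg, if_pos heI.2]
      · rintro (h | h)
        · exact heI.1 h
        · exact hyI (h ▸ heI.2)
      · intro h
        exact (Finset.disjoint_left.1 hIJ) heI.2 (Finset.mem_of_mem_erase h)
    have h := hload e
    rw [hwe] at h
    have h2 : (if e ∈ F i then q i else 0) ≤ ∑ i, (if e ∈ F i then q i else 0) :=
      Finset.single_le_sum (f := fun i => if e ∈ F i then q i else 0)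
        (fun j _ => by
          show 0 ≤ (if e ∈ F j then q j else 0)
          split_ifs
          · exact hq0 j
          · exact le_refl 0) (Finset.mem_univ i)
    rw [if_pos he] at h2
    have h3 := hq0 i
    exact hi (le_antisymm (h2.trans h) h3)
  -- (b)
  have hb : ∀ i, q i ≠ 0 → x ∈ F i ∨ y ∈ F i := by
    intro i hi
    by_contra hcon
    rw [not_or] at hcon
    apply hdead
    refine hm _ _ ?_ (hqL i hi)
    intro e he
    simp only [Finset.mem_compl, Finset.mem_union, Finset.mem_singleton, not_or]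
    refine ⟨fun h => ?_, fun h => hcon.2 (h ▸ he)⟩
    exact (Finset.disjoint_left.1 (ha i hi)) he
      (Finset.mem_erase.2 ⟨fun h => hcon.1 (h ▸ he), h⟩)
  -- (c)
  have ht0 : ∀ i ∈ (Finset.univ : Finset ι), 0 ≤ (if x ∈ F i then q i else 0) +
      (if y ∈ F i then q i else 0) - q i := by
    intro i _
    have h0 := hq0 i
    by_cases hi : q i = 0
    · rw [hi]
      simp
    · rcases hb i hi with h | h
      · rw [if_pos h]
        split_ifs <;> linarith
      · rw [if_pos h]
        split_ifs <;> linarith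
  have hsum : ∑ i, ((if x ∈ F i then q i else 0) + (if y ∈ F i then q i else 0) - q i) =
      ∑ i, (if x ∈ F i then q i else 0) + ∑ i, (if y ∈ F i then q i else 0) - ∑ i, q i := by
    rw [Finset.sum_sub_distrib, Finset.sum_add_distrib]
  have hge := Finset.sum_nonneg ht0
  rw [hsum] at hge
  have hz : ∑ i, ((if x ∈ F i then q i else 0) + (if y ∈ F i then q i else 0) - q i) = 0 := by
    rw [hsum]
    linarith
  rw [Finset.sum_eq_zero_iff_of_nonneg ht0] at hz
  refine ⟨ι, hι, F, q, hq0, fun i hi => ⟨hqL i hi, ha i hi, ?_⟩, by linarith, by linarith,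
    fun v hv => by
      have := hload v
      rwa [hw1 v hv] at this⟩
  have h := hz i (Finset.mem_univ i)
  constructor
  · intro h1 h2
    rw [if_pos h1, if_pos h2] at h
    apply hi
    linarith
  · intro h1
    rcases hb i hi with h2 | h2
    · exact h2
    · exact absurd h2 h1

/-- Case C. -/
lemma caseC (hm : Mono L)
    (hp : ∀ I J : Finset V, Disjoint I J → (I ∪ J).Nonempty → Pck L I J)
    (hxy : L {x, y}) (hF : FracL L) (J : Finset V) (hy : y ∈ J) :
    ∀ (m : ℕ) (I : Finset V), (I ∪ J)ᶜ.card = m → x ∈ I → Disjoint I J →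
      ¬ L (I ∪ {y})ᶜ → TauGe (Mrg L x y) I J 2 → NuGe (Mrg L x y) I J 2 := by
  intro m
  induction m using Nat.strong_induction_on with
  | _ m ih =>
  intro I hcard hx hIJ hdead hT
  have hyI : y ∉ I := fun h => (Finset.disjoint_left.1 hIJ) h hy
  have hxJ : x ∉ J := fun h => (Finset.disjoint_left.1 hIJ) hx h
  have hne : x ≠ y := fun h => hyI (h ▸ hx)
  by_cases hc : ∃ v, v ∉ I ∪ J ∧ TauGe (Mrg L x y) (insert v I) J 2
  · obtain ⟨v, hv, hTv⟩ := hc
    have hv' := hv
    rw [Finset.mem_union, not_or] at hv'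
    obtain ⟨E, h1, h2, h3, h4⟩ := ih (insert v I ∪ J)ᶜ.card (by
      rw [← hcard]
      apply Finset.card_lt_card
      rw [Finset.ssubset_iff_of_subset]
      · exact ⟨v, Finset.mem_compl.2 hv, by simp⟩
      · intro e he
        simp only [Finset.mem_compl, Finset.mem_union, Finset.mem_insert, not_or] at he ⊢
        exact ⟨he.1.2, he.2⟩) (insert v I) rfl (Finset.mem_insert_of_mem hx) (by
        rw [Finset.disjoint_insert_left]
        exact ⟨hv'.2, hIJ⟩) (fun h => hdead (hm _ _ (by
          intro e he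
          simp only [Finset.mem_compl, Finset.mem_union, Finset.mem_insert, Finset.mem_singleton,
            not_or] at he ⊢
          exact ⟨he.1.2, he.2⟩) h)) hTv
    exact ⟨E, fun i => (h1 i).mono_right (Finset.subset_insert _ _), h2, h3, h4⟩
  push Not at hc
  have hT1 : ∀ v, v ∉ I ∪ J → Mrg L x y (I ∪ {v})ᶜ := by
    intro v hv
    rw [Finset.mem_union, not_or] at hv
    exact hT {v} (by simpa using hv.1) (by simpa using hv.2) (by simp)
  -- every point is in a pair
  have hpair : ∀ v, v ∉ I ∪ J → ∃ v', v' ∉ I ∪ J ∧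
      (¬ L (insert v I ∪ {v'})ᶜ ∨ ¬ L ((insert x (insert v I ∪ {v'})ᶜ).erase y)) := by
    intro v hv
    have h := hc v hv
    unfold TauGe at h
    push Not at h
    obtain ⟨X, hX1, hX2, hX3, hX4⟩ := h
    rcases card_lt_two _ hX3 with rfl | ⟨v', rfl⟩
    · exfalso
      apply hX4
      have h := hT1 v hv
      rw [Finset.union_empty]
      rw [Finset.union_comm, ← Finset.insert_eq] at h
      exact h
    · rw [Finset.disjoint_singleton_left, Finset.mem_insert, not_or] at hX1
      rw [Finset.disjoint_singleton_left] at hX2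
      refine ⟨v', by rw [Finset.mem_union, not_or]; exact ⟨hX1.2, hX2⟩, ?_⟩
      by_contra hcon
      rw [not_or, not_not, not_not] at hcon
      apply hX4
      refine ⟨?_, fun _ => hcon.2⟩
      refine hm _ _ ?_ hcon.1
      intro e he
      rw [Finset.mem_erase]
      refine ⟨?_, he⟩
      rintro rfl
      rw [Finset.mem_compl, Finset.mem_union, Finset.mem_insert, not_or, not_or] at he
      exact he.1.2 hx
  obtain ⟨ι, hι, F, q, hq0, hqF, hsx, hsy, hl1⟩ := frac_facts hm hxy hF I J hx hy hIJ hdead hT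
  have hnn : ∀ (p : ι → Prop) [DecidablePred p], ∀ i ∈ (Finset.univ : Finset ι),
      0 ≤ (if p i then q i else 0) := by
    intro p _ i _
    split_ifs
    · exact hq0 i
    · exact le_refl 0
  -- pairs: the other type avoids `v`
  have hex : ∀ (z z' : V), (∀ i, q i ≠ 0 → (z ∈ F i ↔ z' ∉ F i)) →
      ∑ i, (if z ∈ F i then q i else 0) = 2 → ∀ v v', v ∉ I ∪ J → v' ∉ I ∪ J →
      (∀ i, q i ≠ 0 → z ∈ F i → v ∈ F i ∨ v' ∈ F i) →
      ∀ i, q i ≠ 0 → z' ∈ F i → v ∉ F i := by
    intro z z' hzz hz2 v v' hv hv' hpr i0 hi0 hz' hvi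
    have h1 : ∑ i, (if z ∈ F i then q i else 0) ≤
        ∑ i, (if (z ∈ F i ∧ v ∈ F i) then q i else 0) + ∑ i, (if v' ∈ F i then q i else 0) := by
      rw [← Finset.sum_add_distrib]
      apply Finset.sum_le_sum
      intro i _
      have h0 := hq0 i
      by_cases hi : q i = 0
      · rw [hi]
        simp
      · by_cases hzi : z ∈ F i
        · rcases hpr i hi hzi with h | h
          · rw [if_pos hzi, if_pos ⟨hzi, h⟩]
            split_ifs <;> linarith
          · rw [if_pos hzi, if_pos h]
            split_ifs <;> linarith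
        · rw [if_neg hzi]
          split_ifs <;> linarith
    have h2 : ∑ i, (if (z ∈ F i ∧ v ∈ F i) then q i else 0) + q i0 ≤
        ∑ i, (if v ∈ F i then q i else 0) := by
      classical
      have h4 : ∑ i, (if (z ∈ F i ∧ v ∈ F i) then q i else 0) + q i0 =
          ∑ i, ((if (z ∈ F i ∧ v ∈ F i) then q i else 0) + (if i = i0 then q i else 0)) := by
        rw [Finset.sum_add_distrib, Finset.sum_ite_eq' Finset.univ i0 q,
          if_pos (Finset.mem_univ _)]
      rw [h4]
      apply Finset.sum_le_sum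
      intro i _
      have h0 := hq0 i
      by_cases hii : i = i0
      · subst hii
        have hzn : z ∉ F i := fun h => ((hzz i hi0).1 h) hz'
        rw [if_neg (fun h => hzn h.1), if_pos rfl, if_pos hvi]
        linarith
      · rw [if_neg hii]
        by_cases hb : z ∈ F i ∧ v ∈ F i
        · rw [if_pos hb, if_pos hb.2]
          linarith
        · rw [if_neg hb]
          split_ifs <;> linarith
    have h5 := hl1 v hv
    have h6 := hl1 v' hv'
    have h7 : 0 < q i0 := lt_of_le_of_ne (hq0 i0) (Ne.symm hi0)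
    linarith
  have hxy' : ∀ i, q i ≠ 0 → (x ∈ F i ↔ y ∉ F i) := fun i hi => (hqF i hi).2.2
  have hyx' : ∀ i, q i ≠ 0 → (y ∈ F i ↔ x ∉ F i) := fun i hi => by
    rw [hxy' i hi, not_not]
  -- type 2 points
  set ZB : Finset V := (I ∪ J)ᶜ.filter (fun v => ∀ i, q i ≠ 0 → y ∈ F i → v ∉ F i) with hZB
  set ZA : Finset V := (I ∪ J)ᶜ \ ZB with hZA
  have hA : ∀ i, q i ≠ 0 → y ∈ F i → F i ⊆ ZA ∪ J := by
    intro i hi hyi e he
    rw [Finset.mem_union]
    by_cases heJ : e ∈ J
    · exact Or.inr heJ
    · left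
      have hex : e ≠ x := fun h => ((hyx' i hi).1 hyi) (h ▸ he)
      have heI : e ∉ I := fun h =>
        (Finset.disjoint_left.1 (hqF i hi).2.1) he (Finset.mem_erase.2 ⟨hex, h⟩)
      rw [hZA, Finset.mem_sdiff, Finset.mem_compl, Finset.mem_union, not_or]
      refine ⟨⟨heI, heJ⟩, fun h => ?_⟩
      rw [hZB, Finset.mem_filter] at h
      exact h.2 i hi hyi he
  have hB : ∀ i, q i ≠ 0 → x ∈ F i → F i ⊆ ZB ∪ insert x (J.erase y) := by
    intro i hi hxi e he
    rw [Finset.mem_union]
    have hey : e ≠ y := fun h => ((hxy' i hi).1 hxi) (h ▸ he)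
    by_cases hex' : e = x
    · exact Or.inr (Finset.mem_insert.2 (Or.inl hex'))
    by_cases heJ : e ∈ J
    · exact Or.inr (Finset.mem_insert_of_mem (Finset.mem_erase.2 ⟨hey, heJ⟩))
    · left
      have heI : e ∉ I := fun h =>
        (Finset.disjoint_left.1 (hqF i hi).2.1) he (Finset.mem_erase.2 ⟨hex', h⟩)
      have heY : e ∉ I ∪ J := by
        rw [Finset.mem_union, not_or]
        exact ⟨heI, heJ⟩
      rw [hZB, Finset.mem_filter, Finset.mem_compl]
      refine ⟨heY, ?_⟩
      obtain ⟨v', hv', h | h⟩ := hpair e heY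
      · -- type 1: then `e` is not in sets through `x`
        exfalso
        refine hex y x hyx' hsy e v' heY hv' (fun j hj hyj => ?_) i hi hxi he
        by_contra hcon
        rw [not_or] at hcon
        apply h
        refine hm _ _ ?_ (hqF j hj).1
        intro f hf
        simp only [Finset.mem_compl, Finset.mem_union, Finset.mem_insert, Finset.mem_singleton,
          not_or]
        refine ⟨⟨fun h => hcon.1 (h ▸ hf), fun h => ?_⟩, fun h => hcon.2 (h ▸ hf)⟩
        exact (Finset.disjoint_left.1 (hqF j hj).2.1) hf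
          (Finset.mem_erase.2 ⟨fun h' => ((hyx' j hj).1 hyj) (h' ▸ hf), h⟩)
      · refine hex x y hxy' hsx e v' heY hv' (fun j hj hxj => ?_)
        by_contra hcon
        rw [not_or] at hcon
        apply h
        refine hm _ _ ?_ (hqF j hj).1
        intro f hf
        have hfy : f ≠ y := fun h' => ((hxy' j hj).1 hxj) (h' ▸ hf)
        rw [Finset.mem_erase, Finset.mem_insert]
        refine ⟨hfy, ?_⟩
        by_cases hfx : f = x
        · exact Or.inl hfx
        · right
          simp only [Finset.mem_compl, Finset.mem_union, Finset.mem_insert, Finset.mem_singleton,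
            not_or]
          refine ⟨⟨fun h => hcon.1 (h ▸ hf), fun h => ?_⟩, fun h => hcon.2 (h ▸ hf)⟩
          exact (Finset.disjoint_left.1 (hqF j hj).2.1) hf (Finset.mem_erase.2 ⟨hfx, h⟩)
  -- sets avoiding a point
  have hav : ∀ (z : V), ∑ i, (if z ∈ F i then q i else 0) = 2 → ∀ X : Finset V, X.card < 2 →
      (∀ e ∈ X, e ∉ I ∪ J) → ∃ i, q i ≠ 0 ∧ z ∈ F i ∧ Disjoint (F i) X := by
    intro z hz X hX hXI
    by_contra hcon
    push Not at hcon
    rcases card_lt_two _ hX with rfl | ⟨v, rfl⟩
    · have h0 : ∑ i, (if z ∈ F i then q i else 0) = 0 := by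
        apply Finset.sum_eq_zero
        intro i _
        by_cases hi : q i = 0
        · rw [hi]
          simp
        · rw [if_neg]
          intro hzi
          exact hcon i hi hzi (Finset.disjoint_empty_right _)
      rw [h0] at hz
      norm_num at hz
    · have h1 := hl1 v (hXI v (Finset.mem_singleton_self v))
      have h2 : ∑ i, (if z ∈ F i then q i else 0) ≤ ∑ i, (if v ∈ F i then q i else 0) := by
        apply Finset.sum_le_sum
        intro i _
        have h0 := hq0 i
        by_cases hi : q i = 0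
        · rw [hi]
          simp
        · by_cases hzi : z ∈ F i
          · have h := hcon i hi hzi
            rw [Finset.disjoint_singleton_right, not_not] at h
            rw [if_pos h]
            split_ifs <;> linarith
          · rw [if_neg hzi]
            split_ifs <;> linarith
      linarith
  have hZAs : ∀ e ∈ ZA, e ∉ I ∪ J := fun e he =>
    Finset.mem_compl.1 (Finset.mem_sdiff.1 he).1
  have hZBs : ∀ e ∈ ZB, e ∉ I ∪ J := fun e he =>
    Finset.mem_compl.1 (Finset.mem_filter.1 he).1
  have hxY : x ∈ I ∪ J := Finset.mem_union_left _ hx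
  have hyY : y ∈ I ∪ J := Finset.mem_union_right _ hy
  obtain ⟨A, hA1, hA2, hA3, hA4⟩ := hp (ZA ∪ J)ᶜ J (by
    rw [Finset.disjoint_left]
    intro e he heJ
    exact (Finset.mem_compl.1 he) (Finset.mem_union_right _ heJ)) ⟨y, Finset.mem_union_right _ hy⟩ 2
    (by
      intro X hX1 hX2 hX3
      have hXZ : ∀ e ∈ X, e ∈ ZA := by
        intro e he
        have h := (Finset.disjoint_left.1 hX1) he
        rw [Finset.mem_compl, not_not, Finset.mem_union] at h
        rcases h with h | h
        · exact h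
        · exact absurd h ((Finset.disjoint_left.1 hX2) he)
      obtain ⟨i, hi, hyi, hdi⟩ := hav y hsy X hX3 (fun e he => hZAs e (hXZ e he))
      refine hm _ _ ?_ (hqF i hi).1
      intro e he
      rw [Finset.mem_compl, Finset.mem_union, not_or, Finset.mem_compl, not_not]
      exact ⟨hA i hi hyi he, (Finset.disjoint_left.1 hdi) he⟩)
  obtain ⟨B, hB1, hB2, hB3, hB4⟩ := hp (ZB ∪ insert x (J.erase y))ᶜ (insert x (J.erase y)) (by
    rw [Finset.disjoint_left]
    intro e he heJ
    exact (Finset.mem_compl.1 he) (Finset.mem_union_right _ heJ))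
    ⟨x, Finset.mem_union_right _ (Finset.mem_insert_self _ _)⟩ 2
    (by
      intro X hX1 hX2 hX3
      have hXZ : ∀ e ∈ X, e ∈ ZB := by
        intro e he
        have h := (Finset.disjoint_left.1 hX1) he
        rw [Finset.mem_compl, not_not, Finset.mem_union] at h
        rcases h with h | h
        · exact h
        · exact absurd h ((Finset.disjoint_left.1 hX2) he)
      obtain ⟨i, hi, hxi, hdi⟩ := hav x hsx X hX3 (fun e he => hZBs e (hXZ e he))
      refine hm _ _ ?_ (hqF i hi).1
      intro e he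
      rw [Finset.mem_compl, Finset.mem_union, not_or, Finset.mem_compl, not_not]
      exact ⟨hB i hi hxi he, (Finset.disjoint_left.1 hdi) he⟩)
  have hAZ : ∀ i, ∀ e ∈ A i, e ∈ ZA := by
    intro i e he
    have h := (Finset.disjoint_left.1 (hA1 i)) he
    rw [Finset.mem_compl, not_not, Finset.mem_union] at h
    rcases h with h | h
    · exact h
    · exact absurd h ((Finset.disjoint_left.1 (hA2 i)) he)
  have hBZ : ∀ i, ∀ e ∈ B i, e ∈ ZB := by
    intro i e he
    have h := (Finset.disjoint_left.1 (hB1 i)) he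
    rw [Finset.mem_compl, not_not, Finset.mem_union] at h
    rcases h with h | h
    · exact h
    · exact absurd h ((Finset.disjoint_left.1 (hB2 i)) he)
  have hABd : ∀ i j, Disjoint (A i) (B j) := by
    intro i j
    rw [Finset.disjoint_left]
    intro e he he'
    exact (Finset.mem_sdiff.1 (hAZ i e he)).2 (hBZ j e he')
  have hU : ∀ i, ∀ e ∈ A i ∪ B i, e ∉ I ∪ J := by
    intro i e he
    rcases Finset.mem_union.1 he with h | h
    · exact hZAs e (hAZ i e h)
    · exact hZBs e (hBZ i e h)
  refine ⟨fun i => A i ∪ B i, ?_, ?_, ?_, ?_⟩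
  · intro i
    rw [Finset.disjoint_left]
    exact fun e he h => hU i e he (Finset.mem_union_left _ h)
  · intro i
    rw [Finset.disjoint_left]
    exact fun e he h => hU i e he (Finset.mem_union_right _ h)
  · intro i j hij
    rw [Finset.disjoint_union_left, Finset.disjoint_union_right, Finset.disjoint_union_right]
    exact ⟨⟨hA3 i j hij, hABd i j⟩, (hABd j i).symm, hB3 i j hij⟩
  · intro i
    refine ⟨?_, fun _ => ?_⟩
    · refine hm _ _ ?_ (hA4 i)
      intro e he
      rw [Finset.mem_erase, Finset.mem_union, Finset.mem_union]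
      rcases Finset.mem_union.1 he with h | h
      · exact ⟨fun h' => hZAs e (hAZ i e h) (h' ▸ hxY), Or.inl (Or.inl h)⟩
      · exact ⟨fun h' => hxJ (h' ▸ h), Or.inr h⟩
    · refine hm _ _ ?_ (hB4 i)
      intro e he
      rw [Finset.mem_erase, Finset.mem_insert, Finset.mem_union, Finset.mem_union]
      rcases Finset.mem_union.1 he with h | h
      · exact ⟨fun h' => hZBs e (hBZ i e h) (h' ▸ hyY), Or.inr (Or.inl (Or.inr h))⟩
      · rcases Finset.mem_insert.1 h with rfl | h
        · exact ⟨hne, Or.inl rfl⟩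
        · exact ⟨Finset.ne_of_mem_erase h, Or.inr (Or.inr (Finset.mem_of_mem_erase h))⟩

/-- In the merged clutter every minor with covering number at least two has two disjoint live
sets. -/
lemma tRule (hm : Mono L)
    (hp : ∀ I J : Finset V, Disjoint I J → (I ∪ J).Nonempty → Pck L I J)
    (h3 : NuGe L ∅ ∅ 3) (hxy : L {x, y}) (hne : x ≠ y) (hF : FracL L) (I J : Finset V)
    (hx : x ∈ I) (hIJ : Disjoint I J) (hT : TauGe (Mrg L x y) I J 2) :
    NuGe (Mrg L x y) I J 2 := by
  have hxJ : x ∉ J := fun h => (Finset.disjoint_left.1 hIJ) hx h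
  by_cases hyI : y ∈ I
  · have hyJ : y ∉ J := fun h => (Finset.disjoint_left.1 hIJ) hyI h
    obtain ⟨E, h1, h2, h3', h4⟩ := hp I J hIJ ⟨x, Finset.mem_union_left _ hx⟩ 2
      (fun X h1 h2 h3 => hm _ _ (Finset.erase_subset _ _) (hT X h1 h2 h3).1)
    refine ⟨E, h1, h2, h3', fun i => ⟨?_, fun h => ?_⟩⟩
    · rw [Finset.erase_eq_of_notMem]
      · exact h4 i
      · rw [Finset.mem_union, not_or]
        exact ⟨fun h => (Finset.disjoint_left.1 (h1 i)) h hx, hxJ⟩
    · rcases Finset.mem_union.1 h with h | h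
      · exact absurd hyI ((Finset.disjoint_left.1 (h1 i)) h)
      · exact absurd h hyJ
  · by_cases h1 : L (I ∪ {y})ᶜ
    · exact caseB hm hne I J hx hIJ (live3 hm hp h3 hxy I J hx hIJ hyI h1 hT)
    · by_cases hyJ : y ∈ J
      · exact caseC hm hp hxy hF J hyJ _ I rfl hx hIJ h1 hT
      · exfalso
        apply h1
        have h := (hT {y} (by simpa using hyI) (by simpa using hyJ) (by simp)).1
        exact hm _ _ (Finset.erase_subset _ _) h

end Pool.Agent.TRed
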