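import Mathlib

/-!
# Project TRed (MP_98b56a_co): merging the two points of a member of size two

`L` is an upset of subsets of the finite set `V` (`live sets`).  The minor `(I, J)` (delete `I`,
contract `J`) has ground set `(I ∪ J)ᶜ` and live sets `U` with `L (U ∪ J)`.
-/

set_option autoImplicit false

namespace Pool.Agent.TRed

open Finset

variable {V : Type} [Fintype V] [DecidableEq V]

/-- Upset. -/
def Mono (L : Finset V → Prop) : Prop := ∀ A B : Finset V, A ⊆ B → L A → L B

/-- The covering number of the minor `(I, J)` is at least `k`. -/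
def TauGe (L : Finset V → Prop) (I J : Finset V) (k : ℕ) : Prop :=
  ∀ X : Finset V, Disjoint X I → Disjoint X J → X.card < k → L (I ∪ X)ᶜ

/-- The minor `(I, J)` has `k` disjoint live sets. -/
def NuGe (L : Finset V → Prop) (I J : Finset V) (k : ℕ) : Prop :=
  ∃ E : Fin k → Finset V, (∀ i, Disjoint (E i) I) ∧ (∀ i, Disjoint (E i) J) ∧
    (∀ i j, i ≠ j → Disjoint (E i) (E j)) ∧ ∀ i, L (E i ∪ J)

/-- The minor `(I, J)` packs. -/
def Pck (L : Finset V → Prop) (I J : Finset V) : Prop := ∀ k, TauGe L I J k → NuGe L I J k

/-- Fractional packings: the form of idealness which is used. -/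
def FracL (L : Finset V → Prop) : Prop :=
  ∀ (w : V → ℚ) (s : ℚ), (∀ v, 0 ≤ w v) → 0 ≤ s → (∀ U, ¬ L Uᶜ → s ≤ ∑ v ∈ U, w v) →
    ∃ (ι : Type) (_ : Fintype ι) (F : ι → Finset V) (q : ι → ℚ), (∀ i, 0 ≤ q i) ∧
      (∀ i, q i ≠ 0 → L (F i)) ∧ s ≤ ∑ i, q i ∧ ∀ v, ∑ i, (if v ∈ F i then q i else 0) ≤ w v

/-- The clutter in which the points `x` and `y` are merged to `y`. -/
def Mrg (L : Finset V → Prop) (x y : V) (W : Finset V) : Prop :=
  L (W.erase x) ∧ (y ∈ W → L ((insert x W).erase y))

variable {L : Finset V → Prop} {x y : V}

lemma Mrg.mono (hm : Mono L) (hxy : L {x, y}) (hne : x ≠ y) : Mono (Mrg L x y) := by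
  rintro A B hAB ⟨h1, h2⟩
  refine ⟨hm _ _ (Finset.erase_subset_erase _ hAB) h1, fun hy => ?_⟩
  by_cases hyA : y ∈ A
  · exact hm _ _ (Finset.erase_subset_erase _ (Finset.insert_subset_insert _ hAB)) (h2 hyA)
  · refine hm _ _ ?_ h1
    intro e he
    rw [Finset.mem_erase] at he
    rw [Finset.mem_erase, Finset.mem_insert]
    exact ⟨fun h => hyA (h ▸ he.2), Or.inr (hAB he.2)⟩

/-- If no point is in all live subsets of `W` then `W` has two disjoint live subsets. -/
lemma two (hm : Mono L) (hp : ∀ I J : Finset V, Disjoint I J → (I ∪ J).Nonempty → Pck L I J)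
    (h2 : NuGe L ∅ ∅ 2) (W : Finset V) (hW : ∀ v, L (W.erase v)) :
    ∃ P Q : Finset V, Disjoint P Q ∧ P ⊆ W ∧ Q ⊆ W ∧ L P ∧ L Q := by
  by_cases hne : Wᶜ.Nonempty
  · have h := hp Wᶜ ∅ (Finset.disjoint_empty_right _) (by simpa using hne) 2 (by
      intro X hX1 _ hX
      obtain ⟨v, hv⟩ := hne
      have hcases : X = ∅ ∨ ∃ u, X = {u} := by
        rcases Nat.lt_or_ge X.card 1 with h | h
        · exact Or.inl (Finset.card_eq_zero.1 (by omega))
        · exact Or.inr (Finset.card_eq_one.1 (by omega))
      rcases hcases with rfl | ⟨u, rfl⟩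
      · refine hm _ _ ?_ (hW v)
        intro e he
        rw [Finset.mem_erase] at he
        simp [he.2]
      · refine hm _ _ ?_ (hW u)
        intro e he
        rw [Finset.mem_erase] at he
        simp [he.1, he.2])
    obtain ⟨E, hE1, -, hE3, hE4⟩ := h
    have hs : ∀ i, E i ⊆ W := fun i e he => by
      by_contra hcon
      exact (Finset.disjoint_left.1 (hE1 i)) he (Finset.mem_compl.2 hcon)
    exact ⟨E 0, E 1, hE3 0 1 (by decide), hs 0, hs 1, by simpa using hE4 0, by simpa using hE4 1⟩
  · have hWu : W = Finset.univ := by
      rw [Finset.not_nonempty_iff_eq_empty, Finset.compl_eq_empty_iff] at hne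
      exact hne
    obtain ⟨E, -, -, hE3, hE4⟩ := h2
    subst hWu
    exact ⟨E 0, E 1, hE3 0 1 (by decide), Finset.subset_univ _, Finset.subset_univ _,
      by simpa using hE4 0, by simpa using hE4 1⟩

lemma NuGe.le {I J : Finset V} {k m : ℕ} (h : NuGe L I J k) (hmk : m ≤ k) : NuGe L I J m := by
  obtain ⟨E, h1, h2, h3, h4⟩ := h
  refine ⟨fun i => E (Fin.castLE hmk i), fun i => h1 _, fun i => h2 _, fun i j hij => h3 _ _ ?_,
    fun i => h4 _⟩
  intro h
  exact hij (Fin.castLE_injective hmk h)

lemma TauGe.le {I J : Finset V} {k m : ℕ} (h : TauGe L I J k) (hmk : m ≤ k) : TauGe L I J m :=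
  fun X h1 h2 h3 => h X h1 h2 (lt_of_lt_of_le h3 hmk)

/-- A: the covering number drops by at most one. -/
lemma tauM {k : ℕ} (hm : Mono L) (hne : x ≠ y) (hk : TauGe L ∅ ∅ (k + 1)) :
    TauGe (Mrg L x y) {x} ∅ k := by
  intro X hX _ hc
  have hxX : x ∉ X := fun h => (Finset.disjoint_left.1 hX) h (Finset.mem_singleton_self x)
  constructor
  · refine hm _ _ ?_ (hk (insert x X) (Finset.disjoint_empty_right _)
      (Finset.disjoint_empty_right _) (by
        have := Finset.card_insert_le x X
        omega))
    intro e he
    simp only [Finset.empty_union, Finset.mem_compl, Finset.mem_insert, not_or] at he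
    simp [he.1, he.2]
  · intro _
    refine hm _ _ ?_ (hk (insert y X) (Finset.disjoint_empty_right _)
      (Finset.disjoint_empty_right _) (by
        have := Finset.card_insert_le y X
        omega))
    intro e he
    simp only [Finset.empty_union, Finset.mem_compl, Finset.mem_insert, not_or] at he
    simp only [Finset.mem_erase, Finset.mem_insert, Finset.mem_compl, Finset.mem_union,
      Finset.mem_singleton, not_or]
    refine ⟨he.1, ?_⟩
    by_cases hex : e = x
    · exact Or.inl hex
    · exact Or.inr ⟨hex, he.2⟩

/-- B: the packing number drops by at least one. -/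
lemma nuM {k : ℕ} (hm : Mono L)
    (hp : ∀ I J : Finset V, Disjoint I J → (I ∪ J).Nonempty → Pck L I J)
    (h2 : NuGe L ∅ ∅ 2) (hxy : L {x, y}) (hne : x ≠ y) (hk : NuGe (Mrg L x y) {x} ∅ k) :
    NuGe L ∅ ∅ (k + 1) := by
  obtain ⟨E, hE1, -, hE3, hE4⟩ := hk
  have hx : ∀ i, x ∉ E i := fun i h =>
    (Finset.disjoint_left.1 (hE1 i)) h (Finset.mem_singleton_self x)
  have hL : ∀ i, L (E i) := fun i => by
    have h := (hE4 i).1
    rw [Finset.union_empty, Finset.erase_eq_of_notMem (hx i)] at h
    exact h
  by_cases hy : ∃ i, y ∈ E i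
  · obtain ⟨i0, hi0⟩ := hy
    have h5 := (hE4 i0).2 (by simpa using hi0)
    rw [Finset.union_empty] at h5
    obtain ⟨P, Q, hPQ, hP, hQ, hLP, hLQ⟩ := two hm hp h2 (insert x (E i0)) (by
      intro v
      by_cases hvx : v = x
      · subst hvx
        rw [Finset.erase_insert (hx i0)]
        exact hL i0
      · by_cases hvy : v = y
        · subst hvy
          exact h5
        · refine hm _ _ ?_ hxy
          intro e he
          simp only [Finset.mem_insert, Finset.mem_singleton] at he
          rcases he with rfl | rfl
          · simp [Ne.symm hvx]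
          · simp [Ne.symm hvy, hi0])
    have hd : ∀ R : Finset V, R ⊆ insert x (E i0) → ∀ j, j ≠ i0 → Disjoint R (E j) := by
      intro R hR j hj
      rw [Finset.disjoint_left]
      intro e he hej
      rcases Finset.mem_insert.1 (hR he) with rfl | h
      · exact hx j hej
      · exact (Finset.disjoint_left.1 (hE3 j i0 hj)) hej h
    refine ⟨Fin.cons P (Function.update E i0 Q), fun _ => Finset.disjoint_empty_right _,
      fun _ => Finset.disjoint_empty_right _, ?_, ?_⟩
    · have h6 : ∀ j, Disjoint P (Function.update E i0 Q j) := by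
        intro j
        by_cases hj : j = i0
        · subst hj
          rw [Function.update_self]
          exact hPQ
        · rw [Function.update_of_ne hj]
          exact hd P hP j hj
      intro i j
      refine Fin.cases ?_ (fun i' => ?_) i <;> refine Fin.cases ?_ (fun j' => ?_) j
      · intro h
        exact absurd rfl h
      · intro _
        simpa using h6 j'
      · intro _
        simpa using (h6 i').symm
      · intro hij
        have hij' : i' ≠ j' := fun h => hij (by rw [h])
        simp only [Fin.cons_succ]
        by_cases hi : i' = i0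
        · subst hi
          rw [Function.update_self, Function.update_of_ne (Ne.symm hij')]
          exact hd Q hQ j' (Ne.symm hij')
        · by_cases hj : j' = i0
          · subst hj
            rw [Function.update_self, Function.update_of_ne hi]
            exact (hd Q hQ i' hi).symm
          · rw [Function.update_of_ne hi, Function.update_of_ne hj]
            exact hE3 i' j' hij'
    · intro i
      refine Fin.cases ?_ (fun i' => ?_) i
      · simpa using hLP
      · simp only [Fin.cons_succ, Finset.union_empty]
        by_cases hi : i' = i0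
        · subst hi
          rw [Function.update_self]
          exact hLQ
        · rw [Function.update_of_ne hi]
          exact hL i'
  · push Not at hy
    refine ⟨Fin.cons {x, y} E, fun _ => Finset.disjoint_empty_right _,
      fun _ => Finset.disjoint_empty_right _, ?_, ?_⟩
    · have h6 : ∀ j, Disjoint ({x, y} : Finset V) (E j) := by
        intro j
        rw [Finset.disjoint_left]
        intro e he
        simp only [Finset.mem_insert, Finset.mem_singleton] at he
        rcases he with rfl | rfl
        · exact hx j
        · exact hy j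
      intro i j
      refine Fin.cases ?_ (fun i' => ?_) i <;> refine Fin.cases ?_ (fun j' => ?_) j
      · intro h
        exact absurd rfl h
      · intro _
        simpa using h6 j'
      · intro _
        simpa using (h6 i').symm
      · intro hij
        have hij' : i' ≠ j' := fun h => hij (by rw [h])
        simpa using hE3 i' j' hij'
    · intro i
      refine Fin.cases ?_ (fun i' => ?_) i
      · simpa using hxy
      · simpa using hL i'

end Pool.Agent.TRed
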