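import Pool.Agent.TRed.Conv

set_option autoImplicit false

namespace Pool.Agent.TRed

open Finset Filter Topology

variable {W : Type} [Fintype W] [DecidableEq W]

/-- The polyhedron of the clutter. -/
def QQ (D : Finset (Finset W)) : Set (W → ℝ) :=
  {x : W → ℝ | (∀ e, 0 ≤ x e) ∧ ∀ S ∈ D, (1 : ℝ) ≤ ∑ e ∈ S, x e}

/-- A cover which is tight wherever the extreme point `x` is tight. -/
lemma tight_cover (D : Finset (Finset W)) (hF : FracL (LC D)) (x : W → ℝ) (hx : x ∈ QQ D) :
    ∃ U : Finset W, (∀ S ∈ D, (S ∩ U).Nonempty) ∧ (∀ e ∈ U, x e ≠ 0) ∧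
      ∀ S ∈ D, ∑ e ∈ S, x e = 1 → (S ∩ U).card = 1 := by
  classical
  set Z : Finset W := Finset.univ.filter (fun e => x e = 0) with hZ
  set Tt : Finset (Finset W) := D.filter (fun S => ∑ e ∈ S, x e = 1) with hTt
  set wn : W → ℕ := fun e => (if e ∈ Z then 1 else 0) + (Tt.filter (fun S => e ∈ S)).card with hwn
  -- weights of sets
  have hwU : ∀ U : Finset W, ∑ e ∈ U, wn e = (U ∩ Z).card + ∑ S ∈ Tt, (S ∩ U).card := by
    intro U
    rw [hwn, Finset.sum_add_distrib, ← Finset.sum_filter, Finset.sum_const, smul_eq_mul, mul_one,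
      Finset.filter_mem_eq_inter]
    congr 1
    have h1 : ∀ e ∈ U, (Tt.filter (fun S => e ∈ S)).card = ∑ S ∈ Tt, (if e ∈ S then 1 else 0) := by
      intro e _
      rw [Finset.card_filter]
    rw [Finset.sum_congr rfl h1, Finset.sum_comm]
    apply Finset.sum_congr rfl
    intro S _
    rw [Finset.card_eq_sum_ones, ← Finset.sum_filter]
    apply Finset.sum_congr _ (fun _ _ => rfl)
    ext e
    rw [Finset.mem_filter, Finset.mem_inter, and_comm]
  have hwx : ∑ e, (wn e : ℝ) * x e = Tt.card := by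
    have h1 : ∀ e, (wn e : ℝ) * x e = ∑ S ∈ Tt, (if e ∈ S then x e else 0) := by
      intro e
      have h2 : (wn e : ℝ) =
          (if e ∈ Z then 1 else 0) + ∑ S ∈ Tt, (if e ∈ S then (1 : ℝ) else 0) := by
        rw [hwn]
        push_cast
        rw [Finset.card_filter]
        push_cast
        rfl
      rw [h2, add_mul, Finset.sum_mul]
      have h3 : (if e ∈ Z then (1 : ℝ) else 0) * x e = 0 := by
        by_cases h : e ∈ Z
        · rw [(Finset.mem_filter.1 h).2, mul_zero]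
        · rw [if_neg h, zero_mul]
      rw [h3, zero_add]
      apply Finset.sum_congr rfl
      intro S _
      rw [ite_mul, one_mul, zero_mul]
    rw [Finset.sum_congr rfl (fun e _ => h1 e), Finset.sum_comm]
    have h4 : ∀ S ∈ Tt, ∑ e, (if e ∈ S then x e else 0) = 1 := by
      intro S hS
      rw [Finset.sum_ite_mem, Finset.univ_inter]
      exact (Finset.mem_filter.1 hS).2
    rw [Finset.sum_congr rfl h4, Finset.sum_const, nsmul_eq_mul, mul_one]
  -- a cover of weight at most the number of tight sets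
  have hex : ∃ U : Finset W, ¬ LC D Uᶜ ∧ ∑ e ∈ U, wn e ≤ Tt.card := by
    by_contra hcon
    push Not at hcon
    obtain ⟨ι, hι, F, q, hq0, hqL, hqs, hload⟩ := hF (fun e => (wn e : ℚ)) ((Tt.card : ℚ) + 1)
      (fun e => Nat.cast_nonneg _) (by positivity) (by
        intro U hU
        have h := hcon U hU
        rw [← Nat.cast_sum]
        exact_mod_cast h)
    have h1 : ∀ i, (q i : ℝ) ≤ ∑ e, (if e ∈ F i then (q i : ℝ) else 0) * x e := by
      intro i
      have h0 : (0 : ℝ) ≤ q i := by exact_mod_cast hq0 i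
      by_cases hi : q i = 0
      · rw [hi]
        simp
      · obtain ⟨S, hS, hSF⟩ := hqL i hi
        have h2 : 1 ≤ ∑ e ∈ F i, x e :=
          (hx.2 S hS).trans (Finset.sum_le_sum_of_subset_of_nonneg hSF (fun e _ _ => hx.1 e))
        have h3 : ∑ e, (if e ∈ F i then (q i : ℝ) else 0) * x e = q i * ∑ e ∈ F i, x e := by
          rw [Finset.mul_sum]
          simp only [ite_mul, zero_mul]
          rw [Finset.sum_ite_mem, Finset.univ_inter]
        rw [h3]
        calc (q i : ℝ) = q i * 1 := (mul_one _).symm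
          _ ≤ q i * ∑ e ∈ F i, x e := mul_le_mul_of_nonneg_left h2 h0
    have h2 : ∑ i, (q i : ℝ) ≤ ∑ e, (wn e : ℝ) * x e := by
      calc ∑ i, (q i : ℝ) ≤ ∑ i, ∑ e, (if e ∈ F i then (q i : ℝ) else 0) * x e :=
            Finset.sum_le_sum (fun i _ => h1 i)
        _ = ∑ e, ∑ i, (if e ∈ F i then (q i : ℝ) else 0) * x e := Finset.sum_comm
        _ = ∑ e, (∑ i, (if e ∈ F i then (q i : ℝ) else 0)) * x e := by
            apply Finset.sum_congr rfl
            intro e _
            rw [Finset.sum_mul]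
        _ ≤ ∑ e, (wn e : ℝ) * x e := by
            apply Finset.sum_le_sum
            intro e _
            apply mul_le_mul_of_nonneg_right _ (hx.1 e)
            have h := hload e
            have h' : ((∑ i, (if e ∈ F i then q i else 0) : ℚ) : ℝ) ≤ ((wn e : ℚ) : ℝ) := by
              exact_mod_cast h
            rw [Rat.cast_sum] at h'
            have h'' : ∀ i, (((if e ∈ F i then q i else 0) : ℚ) : ℝ) =
                if e ∈ F i then (q i : ℝ) else 0 := fun i => by
              split_ifs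
              · rfl
              · exact Rat.cast_zero
            rw [Finset.sum_congr rfl (fun i _ => h'' i)] at h'
            push_cast at h'
            exact h'
    rw [hwx] at h2
    have h3 : ((Tt.card : ℝ) + 1) ≤ ∑ i, (q i : ℝ) := by
      have h' : (((Tt.card : ℚ) + 1 : ℚ) : ℝ) ≤ ((∑ i, q i : ℚ) : ℝ) := by exact_mod_cast hqs
      rw [Rat.cast_sum] at h'
      push_cast at h'
      exact h'
    linarith
  obtain ⟨U, hU, hUw⟩ := hex
  have hcov : ∀ S ∈ D, (S ∩ U).Nonempty := by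
    intro S hS
    by_contra hcon
    rw [Finset.not_nonempty_iff_eq_empty] at hcon
    apply hU
    refine ⟨S, hS, fun e he => Finset.mem_compl.2 (fun heU => ?_)⟩
    have h : e ∈ S ∩ U := Finset.mem_inter.2 ⟨he, heU⟩
    rw [hcon] at h
    exact Finset.notMem_empty _ h
  rw [hwU] at hUw
  have h1 : ∀ S ∈ Tt, 1 ≤ (S ∩ U).card := fun S hS =>
    Finset.card_pos.2 (hcov S (Finset.mem_filter.1 hS).1)
  have h2 : Tt.card ≤ ∑ S ∈ Tt, (S ∩ U).card := by
    calc Tt.card = ∑ S ∈ Tt, 1 := (Finset.card_eq_sum_ones _)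
      _ ≤ _ := Finset.sum_le_sum h1
  refine ⟨U, hcov, fun e he hxe => ?_, fun S hS hS1 => ?_⟩
  · have h3 : 0 < (U ∩ Z).card := Finset.card_pos.2
      ⟨e, Finset.mem_inter.2 ⟨he, Finset.mem_filter.2 ⟨Finset.mem_univ _, hxe⟩⟩⟩
    omega
  · have hST : S ∈ Tt := Finset.mem_filter.2 ⟨hS, hS1⟩
    have h4 : ∑ S ∈ Tt, (S ∩ U).card ≤ ∑ S ∈ Tt, 1 := by
      rw [← Finset.card_eq_sum_ones]
      omega
    have h5 := (Finset.sum_eq_sum_iff_of_le h1).1
      (le_antisymm (Finset.sum_le_sum h1) h4) S hST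
    exact h5.symm

/-- Fractional packings imply that the extreme points are integral. -/
lemma ext_int (D : Finset (Finset W)) (hF : FracL (LC D)) :
    ∀ x ∈ Set.extremePoints ℝ (QQ D), ∀ e, ∃ z : ℤ, x e = (z : ℝ) := by
  intro x hx
  have hxQ := hx.1
  obtain ⟨U, hcov, hU0, hU1⟩ := tight_cover D hF x hxQ
  set d : W → ℝ := fun e => x e - (if e ∈ U then 1 else 0) with hd
  have hdsum : ∀ S : Finset W, ∑ e ∈ S, d e = ∑ e ∈ S, x e - (S ∩ U).card := by
    intro S
    rw [hd, Finset.sum_sub_distrib, Finset.sum_ite_mem, Finset.sum_const, nsmul_eq_mul, mul_one]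
  -- a small step
  have hev1 : ∀ e : W, ∀ᶠ ε in 𝓝[>] (0 : ℝ), 0 ≤ x e - ε * |d e| := by
    intro e
    by_cases h : x e = 0
    · have hdU : d e = 0 := by
        rw [hd]
        show x e - (if e ∈ U then 1 else 0) = 0
        rw [if_neg (fun he => hU0 e he h), h, sub_zero]
      rw [h, hdU]
      simp
    · have hpos : 0 < x e := lt_of_le_of_ne (hxQ.1 e) (Ne.symm h)
      have ht : Tendsto (fun ε : ℝ => x e - ε * |d e|) (𝓝[>] (0 : ℝ)) (𝓝 (x e - 0 * |d e|)) := by
        apply Tendsto.mono_left _ nhdsWithin_le_nhds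
        exact Continuous.tendsto (by fun_prop) 0
      rw [zero_mul, sub_zero] at ht
      exact (ht.eventually (lt_mem_nhds hpos)).mono (fun ε hε => le_of_lt hε)
  have hev2 : ∀ S ∈ D, ∀ᶠ ε in 𝓝[>] (0 : ℝ), 1 ≤ ∑ e ∈ S, x e - ε * |∑ e ∈ S, d e| := by
    intro S hS
    by_cases h : ∑ e ∈ S, x e = 1
    · have hd0 : ∑ e ∈ S, d e = 0 := by
        rw [hdsum, h, hU1 S hS h]
        norm_num
      rw [hd0, h]
      simp
    · have hpos : 1 < ∑ e ∈ S, x e := lt_of_le_of_ne (hxQ.2 S hS) (Ne.symm h)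
      have ht : Tendsto (fun ε : ℝ => ∑ e ∈ S, x e - ε * |∑ e ∈ S, d e|) (𝓝[>] (0 : ℝ))
          (𝓝 (∑ e ∈ S, x e - 0 * |∑ e ∈ S, d e|)) := by
        apply Tendsto.mono_left _ nhdsWithin_le_nhds
        exact Continuous.tendsto (by fun_prop) 0
      rw [zero_mul, sub_zero] at ht
      exact (ht.eventually (lt_mem_nhds hpos)).mono (fun ε hε => le_of_lt hε)
  have hev1' : ∀ᶠ ε in 𝓝[>] (0 : ℝ), ∀ e, 0 ≤ x e - ε * |d e| := Filter.eventually_all.2 hev1
  have hev2' : ∀ᶠ ε in 𝓝[>] (0 : ℝ), ∀ S ∈ D, 1 ≤ ∑ e ∈ S, x e - ε * |∑ e ∈ S, d e| :=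
    (Filter.eventually_all_finset D).2 hev2
  obtain ⟨ε, ⟨h1, h2⟩, hε⟩ :=
    ((hev1'.and hev2').and (self_mem_nhdsWithin : ∀ᶠ ε in 𝓝[>] (0 : ℝ), ε ∈ Set.Ioi 0)).exists
  have hε0 : 0 < ε := hε
  have hmem : ∀ σ : ℝ, |σ| ≤ ε → (fun e => x e + σ * d e) ∈ QQ D := by
    intro σ hσ
    constructor
    · intro e
      have h3 : |σ * d e| ≤ ε * |d e| := by
        rw [abs_mul]
        exact mul_le_mul_of_nonneg_right hσ (abs_nonneg _)
      have h4 := neg_abs_le (σ * d e)
      have h5 := h1 e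
      show 0 ≤ x e + σ * d e
      linarith
    · intro S hS
      have h3 : |σ * ∑ e ∈ S, d e| ≤ ε * |∑ e ∈ S, d e| := by
        rw [abs_mul]
        exact mul_le_mul_of_nonneg_right hσ (abs_nonneg _)
      have h4 := neg_abs_le (σ * ∑ e ∈ S, d e)
      have h5 := h2 S hS
      rw [Finset.sum_add_distrib, ← Finset.mul_sum]
      linarith
  have ha := hmem ε (by rw [abs_of_pos hε0])
  have hb := hmem (-ε) (by rw [abs_neg, abs_of_pos hε0])
  have hseg : x ∈ openSegment ℝ (fun e => x e + ε * d e) (fun e => x e + (-ε) * d e) := by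
    refine ⟨1 / 2, 1 / 2, by norm_num, by norm_num, by norm_num, ?_⟩
    ext e
    simp only [Pi.add_apply, Pi.smul_apply, smul_eq_mul]
    ring
  have hxe := hx.2 ha hb hseg
  intro e
  have h3 : x e + ε * d e = x e := congrFun hxe e
  have h4 : d e = 0 := by
    have h5 : ε * d e = 0 := by linarith
    rcases mul_eq_zero.1 h5 with h6 | h6
    · exact absurd h6 (ne_of_gt hε0)
    · exact h6
  have h5 : x e = (if e ∈ U then 1 else 0) := by
    have : x e - (if e ∈ U then 1 else 0) = 0 := h4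
    linarith
  by_cases he : e ∈ U
  · exact ⟨1, by rw [h5, if_pos he]; norm_num⟩
  · exact ⟨0, by rw [h5, if_neg he]; norm_num⟩

end Pool.Agent.TRed
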