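import Pool.Agent.TRed.Core

set_option autoImplicit false

namespace Pool.Agent.TRed

open Finset

variable {V : Type} [Fintype V] [DecidableEq V] {L : Finset V → Prop} {x y : V}

/-- The weight for the original clutter. -/
lemma fracM_cover (hm : Mono L) (hxy : L {x, y}) (hne : x ≠ y) (w : V → ℚ) (s : ℚ)
    (hw : ∀ v, 0 ≤ w v) (hcov : ∀ U, ¬ Mrg L x y Uᶜ → s ≤ ∑ v ∈ U, w v)
    (U : Finset V) (hU : ¬ L Uᶜ) :
    s + min (w y) s ≤ ∑ v ∈ U, (if v = x ∨ v = y then min (w y) s else w v) := by
  set a := min (w y) s with ha
  have haw : a ≤ w y := min_le_left _ _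
  have has : a ≤ s := min_le_right _ _
  have hR : ∑ v ∈ (U.erase x).erase y, (if v = x ∨ v = y then a else w v) =
      ∑ v ∈ (U.erase x).erase y, w v := by
    apply Finset.sum_congr rfl
    intro v hv
    rw [Finset.mem_erase, Finset.mem_erase] at hv
    rw [if_neg]
    rintro (h | h)
    · exact hv.2.1 h
    · exact hv.1 h
  by_cases hxU : x ∈ U
  · have h1 : s ≤ ∑ v ∈ U.erase x, w v := by
      apply hcov
      intro h
      apply hU
      refine hm _ _ ?_ h.1
      intro e he
      rw [Finset.mem_erase, Finset.mem_compl, Finset.mem_erase, not_and] at he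
      exact Finset.mem_compl.2 (he.2 he.1)
    have h2 := Finset.sum_erase_add U (fun v => if v = x ∨ v = y then a else w v) hxU
    simp only [true_or, if_true] at h2
    by_cases hyU : y ∈ U
    · have hyU' : y ∈ U.erase x := Finset.mem_erase.2 ⟨Ne.symm hne, hyU⟩
      have h3 := Finset.sum_erase_add (U.erase x) (fun v => if v = x ∨ v = y then a else w v) hyU'
      simp only [or_true, if_true] at h3
      have h4 := Finset.sum_erase_add (U.erase x) w hyU'
      have hRn : 0 ≤ ∑ v ∈ (U.erase x).erase y, w v := Finset.sum_nonneg (fun v _ => hw v)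
      rw [hR] at h3
      rcases le_total (w y) s with h | h
      · have h5 : a = w y := min_eq_left h
        linarith
      · have h5 : a = s := min_eq_right h
        linarith
    · have hyU' : y ∉ U.erase x := fun h => hyU (Finset.mem_of_mem_erase h)
      rw [Finset.erase_eq_of_notMem hyU'] at hR
      linarith
  · by_cases hyU : y ∈ U
    · have h1 : s ≤ ∑ v ∈ U.erase y, w v := by
        apply hcov
        intro h
        apply hU
        refine hm _ _ ?_ (h.2 (by simp))
        intro e he
        rw [Finset.mem_erase, Finset.mem_insert, Finset.mem_compl, Finset.mem_erase] at he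
        rw [Finset.mem_compl]
        rcases he.2 with h' | h'
        · exact h' ▸ hxU
        · exact fun h'' => h' ⟨he.1, h''⟩
      have h2 := Finset.sum_erase_add U (fun v => if v = x ∨ v = y then a else w v) hyU
      simp only [or_true, if_true] at h2
      rw [Finset.erase_eq_of_notMem hxU] at hR
      linarith
    · exfalso
      apply hU
      refine hm _ _ ?_ hxy
      intro e he
      simp only [Finset.mem_insert, Finset.mem_singleton] at he
      rw [Finset.mem_compl]
      rcases he with rfl | rfl
      · exact hxU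
      · exact hyU

/-- C: the merged clutter is ideal. -/
lemma fracM (hm : Mono L) (hxy : L {x, y}) (hne : x ≠ y) (hF : FracL L) :
    FracL (Mrg L x y) := by
  intro w s hw hs hcov
  set a := min (w y) s with ha
  have haw : a ≤ w y := min_le_left _ _
  have ha0 : 0 ≤ a := le_min (hw y) hs
  obtain ⟨ι, hι, F, q, hq0, hqL, hq4, hload⟩ := hF
    (fun v => if v = x ∨ v = y then a else w v) (s + a)
    (fun v => by
      show 0 ≤ (if v = x ∨ v = y then a else w v)
      split_ifs
      · exact ha0
      · exact hw v) (by linarith)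
    (fun U hU => fracM_cover hm hxy hne w s hw hcov U hU)
  set A : ι → ℚ := fun i => if y ∈ F i ∧ x ∉ F i then q i else 0 with hA
  set B : ι → ℚ := fun i => if x ∈ F i ∧ y ∉ F i then q i else 0 with hB
  set D : ι → ℚ := fun i => if x ∉ F i ∧ y ∉ F i then q i else 0 with hD
  have hA0 : ∀ i, 0 ≤ A i := fun i => by
    show 0 ≤ (if y ∈ F i ∧ x ∉ F i then q i else 0)
    split_ifs
    · exact hq0 i
    · exact le_refl 0
  have hB0 : ∀ i, 0 ≤ B i := fun i => by
    show 0 ≤ (if x ∈ F i ∧ y ∉ F i then q i else 0)
    split_ifs
    · exact hq0 i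
    · exact le_refl 0
  have hD0 : ∀ i, 0 ≤ D i := fun i => by
    show 0 ≤ (if x ∉ F i ∧ y ∉ F i then q i else 0)
    split_ifs
    · exact hq0 i
    · exact le_refl 0
  have hsum0 : ∀ f : ι → ℚ, (∀ i, 0 ≤ f i) → 0 ≤ ∑ i, f i := fun f hf =>
    Finset.sum_nonneg (fun i _ => hf i)
  set α := ∑ i, A i with hα
  set β := ∑ i, B i with hβ
  have hα0 : 0 ≤ α := hsum0 A hA0
  have hβ0 : 0 ≤ β := hsum0 B hB0
  have hlx := hload x
  have hly := hload y
  simp only [true_or, or_true, if_true] at hlx hly
  -- totals
  have hA1 : α ≤ a := by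
    refine le_trans (Finset.sum_le_sum (fun i _ => ?_)) hly
    show (if y ∈ F i ∧ x ∉ F i then q i else 0) ≤ (if y ∈ F i then q i else 0)
    have h0 := hq0 i
    by_cases h : y ∈ F i ∧ x ∉ F i
    · rw [if_pos h, if_pos h.1]
    · rw [if_neg h]
      split_ifs
      · exact h0
      · exact le_refl 0
  have hT1 : s ≤ ∑ i, D i + β := by
    have h : ∑ i, q i ≤ ∑ i, (D i + B i + (if y ∈ F i then q i else 0)) := by
      apply Finset.sum_le_sum
      intro i _
      have h0 := hq0 i
      show q i ≤ (if x ∉ F i ∧ y ∉ F i then q i else 0) + (if x ∈ F i ∧ y ∉ F i then q i else 0) +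
        (if y ∈ F i then q i else 0)
      by_cases h1 : x ∈ F i <;> by_cases h2 : y ∈ F i <;> simp [h1, h2]
    rw [Finset.sum_add_distrib, Finset.sum_add_distrib] at h
    linarith
  have hT2 : s ≤ ∑ i, D i + α := by
    have h : ∑ i, q i ≤ ∑ i, (D i + A i + (if x ∈ F i then q i else 0)) := by
      apply Finset.sum_le_sum
      intro i _
      have h0 := hq0 i
      show q i ≤ (if x ∉ F i ∧ y ∉ F i then q i else 0) + (if y ∈ F i ∧ x ∉ F i then q i else 0) +
        (if x ∈ F i then q i else 0)
      by_cases h1 : x ∈ F i <;> by_cases h2 : y ∈ F i <;> simp [h1, h2]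
    rw [Finset.sum_add_distrib, Finset.sum_add_distrib] at h
    linarith
  -- the factor
  obtain ⟨c, hc0, hcα, hcβ, hcm⟩ : ∃ c : ℚ, 0 ≤ c ∧ c * α ≤ 1 ∧ c * β ≤ 1 ∧
      s ≤ ∑ i, D i + α * β * c := by
    rcases eq_or_lt_of_le (le_max_of_le_left hα0 : 0 ≤ max α β) with h | h
    · have h1 : α = 0 := le_antisymm (h ▸ le_max_left α β) hα0
      have h2 : β = 0 := le_antisymm (h ▸ le_max_right α β) hβ0
      refine ⟨0, le_refl 0, by rw [h1]; norm_num, by rw [h2]; norm_num, ?_⟩
      rw [h1]
      rw [h1] at hT2
      linarith
    · refine ⟨(max α β)⁻¹, le_of_lt (inv_pos.2 h), ?_, ?_, ?_⟩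
      · rw [inv_mul_le_iff₀ h, mul_one]
        exact le_max_left α β
      · rw [inv_mul_le_iff₀ h, mul_one]
        exact le_max_right α β
      · rcases le_total α β with h1 | h1
        · rw [max_eq_right h1] at h ⊢
          rw [mul_assoc, mul_inv_cancel₀ (ne_of_gt h), mul_one]
          exact hT2
        · rw [max_eq_left h1] at h ⊢
          rw [mul_comm α β, mul_assoc, mul_inv_cancel₀ (ne_of_gt h), mul_one]
          exact hT1
  have hfac : ∀ f g : ι → ℚ, ∑ p : ι × ι, f p.1 * g p.2 * c = (∑ i, f i) * (∑ j, g j) * c := by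
    intro f g
    rw [Fintype.sum_prod_type, Finset.sum_mul_sum, Finset.sum_mul]
    apply Finset.sum_congr rfl
    intro i _
    rw [Finset.sum_mul]
  refine ⟨ι ⊕ (ι × ι), inferInstance, Sum.elim F (fun p => (F p.1 ∪ F p.2).erase x),
    Sum.elim D (fun p => A p.1 * B p.2 * c), ?_, ?_, ?_, ?_⟩
  · rintro (i | p)
    · exact hD0 i
    · exact mul_nonneg (mul_nonneg (hA0 _) (hB0 _)) hc0
  · rintro (i | p) hi
    · have h : D i ≠ 0 := hi
      have h1 : x ∉ F i ∧ y ∉ F i := by
        by_contra hcon
        exact h (if_neg hcon)
      have h2 : q i ≠ 0 := by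
        intro h3
        apply h
        show (if x ∉ F i ∧ y ∉ F i then q i else 0) = 0
        rw [if_pos h1, h3]
      refine ⟨?_, fun h3 => absurd h3 h1.2⟩
      show L ((F i).erase x)
      rw [Finset.erase_eq_of_notMem h1.1]
      exact hqL i h2
    · have h : A p.1 * B p.2 * c ≠ 0 := hi
      have hAi : A p.1 ≠ 0 := fun h' => h (by rw [h', zero_mul, zero_mul])
      have hBi : B p.2 ≠ 0 := fun h' => h (by rw [h', mul_zero, zero_mul])
      have h1 : y ∈ F p.1 ∧ x ∉ F p.1 := by
        by_contra hcon
        exact hAi (if_neg hcon)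
      have h2 : x ∈ F p.2 ∧ y ∉ F p.2 := by
        by_contra hcon
        exact hBi (if_neg hcon)
      have h3 : q p.1 ≠ 0 := by
        intro h3
        apply hAi
        show (if y ∈ F p.1 ∧ x ∉ F p.1 then q p.1 else 0) = 0
        rw [if_pos h1, h3]
      have h4 : q p.2 ≠ 0 := by
        intro h3
        apply hBi
        show (if x ∈ F p.2 ∧ y ∉ F p.2 then q p.2 else 0) = 0
        rw [if_pos h2, h3]
      refine ⟨?_, fun _ => ?_⟩
      · refine hm _ _ ?_ (hqL _ h3)
        intro e he
        show e ∈ ((F p.1 ∪ F p.2).erase x).erase x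
        have hex : e ≠ x := fun h' => h1.2 (h' ▸ he)
        rw [Finset.mem_erase, Finset.mem_erase, Finset.mem_union]
        exact ⟨hex, hex, Or.inl he⟩
      · refine hm _ _ ?_ (hqL _ h4)
        intro e he
        show e ∈ (insert x ((F p.1 ∪ F p.2).erase x)).erase y
        have hey : e ≠ y := fun h' => h2.2 (h' ▸ he)
        rw [Finset.mem_erase, Finset.mem_insert, Finset.mem_erase, Finset.mem_union]
        by_cases hex : e = x
        · exact ⟨hey, Or.inl hex⟩
        · exact ⟨hey, Or.inr ⟨hex, Or.inr he⟩⟩
  · rw [Fintype.sum_sum_type]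
    simp only [Sum.elim_inl, Sum.elim_inr]
    rw [hfac A B]
    exact hcm
  · intro v
    rw [Fintype.sum_sum_type]
    simp only [Sum.elim_inl, Sum.elim_inr]
    by_cases hvx : v = x
    · subst hvx
      have h1 : ∑ i, (if v ∈ F i then D i else 0) = 0 := by
        apply Finset.sum_eq_zero
        intro i _
        by_cases h : v ∈ F i
        · rw [if_pos h]
          exact if_neg (fun h' => h'.1 h)
        · rw [if_neg h]
      have h2 : ∑ p : ι × ι, (if v ∈ (F p.1 ∪ F p.2).erase v then A p.1 * B p.2 * c else 0) =
          0 := by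
        apply Finset.sum_eq_zero
        intro p _
        rw [if_neg (Finset.notMem_erase v _)]
      rw [h1, h2, add_zero]
      exact hw v
    · by_cases hvy : v = y
      · subst hvy
        have h1 : ∑ i, (if v ∈ F i then D i else 0) = 0 := by
          apply Finset.sum_eq_zero
          intro i _
          by_cases h : v ∈ F i
          · rw [if_pos h]
            exact if_neg (fun h' => h'.2 h)
          · rw [if_neg h]
        have h2 : ∑ p : ι × ι, (if v ∈ (F p.1 ∪ F p.2).erase x then A p.1 * B p.2 * c else 0) ≤
            ∑ p : ι × ι, A p.1 * B p.2 * c := by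
          apply Finset.sum_le_sum
          intro p _
          have h0 : 0 ≤ A p.1 * B p.2 * c := mul_nonneg (mul_nonneg (hA0 _) (hB0 _)) hc0
          split_ifs
          · exact le_refl _
          · exact h0
        rw [hfac A B] at h2
        have h3 : α * β * c ≤ α := by
          have : α * β * c = α * (c * β) := by ring
          rw [this]
          calc α * (c * β) ≤ α * 1 := mul_le_mul_of_nonneg_left hcβ hα0
            _ = α := mul_one α
        rw [h1, zero_add]
        linarith
      · have h2 : ∑ p : ι × ι, (if v ∈ (F p.1 ∪ F p.2).erase x then A p.1 * B p.2 * c else 0) ≤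
            ∑ p : ι × ι, ((if v ∈ F p.1 then A p.1 else 0) * B p.2 * c +
              A p.1 * (if v ∈ F p.2 then B p.2 else 0) * c) := by
          apply Finset.sum_le_sum
          intro p _
          have h0 : 0 ≤ A p.1 * B p.2 * c := mul_nonneg (mul_nonneg (hA0 _) (hB0 _)) hc0
          by_cases h1 : v ∈ F p.1
          · rw [if_pos h1]
            have h5 : 0 ≤ A p.1 * (if v ∈ F p.2 then B p.2 else 0) * c := by
              split_ifs
              · exact h0
              · simp
            split_ifs with h6 h7 h7 <;> simp_all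
          · by_cases h3 : v ∈ F p.2
            · rw [if_neg h1, if_pos h3]
              split_ifs
              · simp
              · simpa using h0
            · rw [if_neg, if_neg h1, if_neg h3]
              · simp
              · rw [Finset.mem_erase, Finset.mem_union, not_and, not_or]
                exact fun _ => ⟨h1, h3⟩
        rw [Finset.sum_add_distrib, hfac (fun i => if v ∈ F i then A i else 0) B,
          hfac A (fun i => if v ∈ F i then B i else 0)] at h2
        set A' := ∑ i, (if v ∈ F i then A i else 0) with hA'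
        set B' := ∑ i, (if v ∈ F i then B i else 0) with hB'
        have hA'0 : 0 ≤ A' := hsum0 _ (fun i => by
          show 0 ≤ (if v ∈ F i then A i else 0)
          split_ifs
          · exact hA0 i
          · exact le_refl 0)
        have hB'0 : 0 ≤ B' := hsum0 _ (fun i => by
          show 0 ≤ (if v ∈ F i then B i else 0)
          split_ifs
          · exact hB0 i
          · exact le_refl 0)
        have h3 : A' * β * c ≤ A' := by
          have : A' * β * c = A' * (c * β) := by ring
          rw [this]
          calc A' * (c * β) ≤ A' * 1 := mul_le_mul_of_nonneg_left hcβ hA'0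
            _ = A' := mul_one A'
        have h4 : α * B' * c ≤ B' := by
          have : α * B' * c = B' * (c * α) := by ring
          rw [this]
          calc B' * (c * α) ≤ B' * 1 := mul_le_mul_of_nonneg_left hcα hB'0
            _ = B' := mul_one B'
        have h5 : ∑ i, (if v ∈ F i then D i else 0) + A' + B' ≤
            ∑ i, (if v ∈ F i then q i else 0) := by
          rw [hA', hB', ← Finset.sum_add_distrib, ← Finset.sum_add_distrib]
          apply Finset.sum_le_sum
          intro i _
          have h0 := hq0 i
          by_cases hv : v ∈ F i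
          · rw [if_pos hv, if_pos hv, if_pos hv, if_pos hv]
            show (if x ∉ F i ∧ y ∉ F i then q i else 0) + (if y ∈ F i ∧ x ∉ F i then q i else 0) +
              (if x ∈ F i ∧ y ∉ F i then q i else 0) ≤ q i
            by_cases h1 : x ∈ F i <;> by_cases h2 : y ∈ F i <;> simp [h1, h2, h0]
          · rw [if_neg hv, if_neg hv, if_neg hv, if_neg hv]
            norm_num
        have h6 := hload v
        simp only [hvx, hvy, or_self, if_false] at h6
        linarith

end Pool.Agent.TRed
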