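import Pool.Agent.TRed.Core

set_option autoImplicit false

namespace Pool.Agent.TRed

open Finset

variable {V : Type} [Fintype V] [DecidableEq V] {L : Finset V → Prop} {x y : V}

lemma card_lt_two (X : Finset V) (h : X.card < 2) : X = ∅ ∨ ∃ u, X = {u} := by
  rcases Nat.lt_or_ge X.card 1 with h1 | h1
  · exact Or.inl (Finset.card_eq_zero.1 (by omega))
  · exact Or.inr (Finset.card_eq_one.1 (by omega))

/-- The minor of `L` has three disjoint live sets. -/
lemma live3 (hm : Mono L)
    (hp : ∀ I J : Finset V, Disjoint I J → (I ∪ J).Nonempty → Pck L I J)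
    (h3 : NuGe L ∅ ∅ 3) (hxy : L {x, y}) (I J : Finset V) (hx : x ∈ I) (hIJ : Disjoint I J)
    (hyI : y ∉ I) (h1 : L (I ∪ {y})ᶜ) (hT : TauGe (Mrg L x y) I J 2) :
    NuGe L (I.erase x) (J.erase y) 3 := by
  have hne : x ≠ y := fun h => hyI (h ▸ hx)
  have hT1 : ∀ v, v ∉ I → v ∉ J → v ≠ y →
      L (I ∪ {v})ᶜ ∧ L ((insert x (I ∪ {v})ᶜ).erase y) := by
    intro v hvI hvJ hvy
    have h := hT {v} (by simpa using hvI) (by simpa using hvJ) (by simp)
    refine ⟨hm _ _ (Finset.erase_subset _ _) h.1, h.2 ?_⟩
    simp [hyI, Ne.symm hvy]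
  have hTau : TauGe L (I.erase x) (J.erase y) 3 := by
    intro X hX1 hX2 hX3
    by_cases hxX : x ∈ X
    · by_cases hyX : y ∈ X
      · refine hm _ _ ?_ h1
        intro e he
        simp only [Finset.mem_compl, Finset.mem_union, Finset.mem_singleton, not_or] at he
        simp only [Finset.mem_compl, Finset.mem_union, Finset.mem_erase, not_or, not_and]
        refine ⟨fun _ => he.1, fun heX => ?_⟩
        have hsub : ({x, y, e} : Finset V) ⊆ X := by
          intro f hf
          simp only [Finset.mem_insert, Finset.mem_singleton] at hf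
          rcases hf with rfl | rfl | rfl
          · exact hxX
          · exact hyX
          · exact heX
        have h4 := Finset.card_le_card hsub
        rw [Finset.card_insert_of_notMem, Finset.card_insert_of_notMem,
          Finset.card_singleton] at h4
        · omega
        · simpa using Ne.symm he.2
        · simp only [Finset.mem_insert, Finset.mem_singleton, not_or]
          exact ⟨hne, fun h => he.1 (h ▸ hx)⟩
      · have hc : (X.erase x).card < 2 := by
          rw [Finset.card_erase_of_mem hxX]
          omega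
        rcases card_lt_two _ hc with h | ⟨v, h⟩
        · refine hm _ _ ?_ h1
          intro e he
          simp only [Finset.mem_compl, Finset.mem_union, Finset.mem_singleton, not_or] at he
          simp only [Finset.mem_compl, Finset.mem_union, Finset.mem_erase, not_or, not_and]
          refine ⟨fun _ => he.1, fun heX => ?_⟩
          have h5 : e ∈ X.erase x := Finset.mem_erase.2 ⟨fun h => he.1 (h ▸ hx), heX⟩
          rw [h] at h5
          exact Finset.notMem_empty _ h5
        · have hv : v ∈ X.erase x := by rw [h]; exact Finset.mem_singleton_self v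
          rw [Finset.mem_erase] at hv
          have hvy : v ≠ y := fun h => hyX (h ▸ hv.2)
          have hvI : v ∉ I := fun h =>
            (Finset.disjoint_left.1 hX1) hv.2 (Finset.mem_erase.2 ⟨hv.1, h⟩)
          have hvJ : v ∉ J := fun h =>
            (Finset.disjoint_left.1 hX2) hv.2 (Finset.mem_erase.2 ⟨hvy, h⟩)
          refine hm _ _ ?_ (hT1 v hvI hvJ hvy).1
          intro e he
          simp only [Finset.mem_compl, Finset.mem_union, Finset.mem_singleton, not_or] at he
          simp only [Finset.mem_compl, Finset.mem_union, Finset.mem_erase, not_or, not_and]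
          refine ⟨fun _ => he.1, fun heX => ?_⟩
          have h5 : e ∈ X.erase x := Finset.mem_erase.2 ⟨fun h => he.1 (h ▸ hx), heX⟩
          rw [h, Finset.mem_singleton] at h5
          exact he.2 h5
    · by_cases hyX : y ∈ X
      · have hc : (X.erase y).card < 2 := by
          rw [Finset.card_erase_of_mem hyX]
          omega
        rcases card_lt_two _ hc with h | ⟨v, h⟩
        · refine hm _ _ ?_ h1
          intro e he
          simp only [Finset.mem_compl, Finset.mem_union, Finset.mem_singleton, not_or] at he
          simp only [Finset.mem_compl, Finset.mem_union, Finset.mem_erase, not_or, not_and]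
          refine ⟨fun _ => he.1, fun heX => ?_⟩
          have h5 : e ∈ X.erase y := Finset.mem_erase.2 ⟨he.2, heX⟩
          rw [h] at h5
          exact Finset.notMem_empty _ h5
        · have hv : v ∈ X.erase y := by rw [h]; exact Finset.mem_singleton_self v
          rw [Finset.mem_erase] at hv
          have hvx : v ≠ x := fun h => hxX (h ▸ hv.2)
          have hvI : v ∉ I := fun h =>
            (Finset.disjoint_left.1 hX1) hv.2 (Finset.mem_erase.2 ⟨hvx, h⟩)
          have hvJ : v ∉ J := fun h =>
            (Finset.disjoint_left.1 hX2) hv.2 (Finset.mem_erase.2 ⟨hv.1, h⟩)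
          refine hm _ _ ?_ (hT1 v hvI hvJ hv.1).2
          intro e he
          simp only [Finset.mem_erase, Finset.mem_insert, Finset.mem_compl, Finset.mem_union,
            Finset.mem_singleton, not_or] at he
          simp only [Finset.mem_compl, Finset.mem_union, Finset.mem_erase, not_or, not_and]
          refine ⟨fun hex => ?_, fun heX => ?_⟩
          · rcases he.2 with h' | h'
            · exact absurd h' hex
            · exact h'.1
          · have h5 : e ∈ X.erase y := Finset.mem_erase.2 ⟨he.1, heX⟩
            rw [h, Finset.mem_singleton] at h5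
            rcases he.2 with h' | h'
            · exact hxX (h' ▸ heX)
            · exact h'.2 h5
      · refine hm _ _ ?_ hxy
        intro e he
        simp only [Finset.mem_insert, Finset.mem_singleton] at he
        rcases he with rfl | rfl
        · simp [hxX]
        · simp [hyX, hyI]
  by_cases hne2 : (I.erase x ∪ J.erase y).Nonempty
  · exact hp _ _ (Disjoint.mono (Finset.erase_subset _ _) (Finset.erase_subset _ _) hIJ) hne2 3
      hTau
  · rw [Finset.not_nonempty_iff_eq_empty, Finset.union_eq_empty] at hne2
    rw [hne2.1, hne2.2]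
    exact h3

/-- The case where there are three disjoint live sets. -/
lemma caseB (hm : Mono L) (hne : x ≠ y) (I J : Finset V) (hx : x ∈ I)
    (hIJ : Disjoint I J) (h : NuGe L (I.erase x) (J.erase y) 3) :
    NuGe (Mrg L x y) I J 2 := by
  obtain ⟨E, hE1, hE2, hE3, hE4⟩ := h
  have hxJ : x ∉ J := fun h => (Finset.disjoint_left.1 hIJ) hx h
  have k1 : ∀ i, x ∉ E i → y ∉ E i → Disjoint (E i) I ∧ Disjoint (E i) J ∧
      Mrg L x y (E i ∪ J) := by
    intro i hxi hyi
    refine ⟨?_, ?_, ?_, fun _ => ?_⟩
    · rw [Finset.disjoint_left]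
      intro e he heI
      exact (Finset.disjoint_left.1 (hE1 i)) he (Finset.mem_erase.2 ⟨fun h => hxi (h ▸ he), heI⟩)
    · rw [Finset.disjoint_left]
      intro e he heI
      exact (Finset.disjoint_left.1 (hE2 i)) he (Finset.mem_erase.2 ⟨fun h => hyi (h ▸ he), heI⟩)
    · refine hm _ _ ?_ (hE4 i)
      intro e he
      simp only [Finset.mem_union, Finset.mem_erase] at he ⊢
      rcases he with h | h
      · exact ⟨fun h' => hxi (h' ▸ h), Or.inl h⟩
      · exact ⟨fun h' => hxJ (h' ▸ h.2), Or.inr h.2⟩
    · refine hm _ _ ?_ (hE4 i)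
      intro e he
      simp only [Finset.mem_union, Finset.mem_erase, Finset.mem_insert] at he ⊢
      rcases he with h | h
      · exact ⟨fun h' => hyi (h' ▸ h), Or.inr (Or.inl h)⟩
      · exact ⟨h.1, Or.inr (Or.inr h.2)⟩
  have k2 : ∀ a b, a ≠ b → (x ∉ E a ∧ y ∉ E a) → (x ∉ E b ∧ y ∉ E b) →
      NuGe (Mrg L x y) I J 2 := by
    intro a b hab ha hb
    obtain ⟨a1, a2, a3⟩ := k1 a ha.1 ha.2
    obtain ⟨b1, b2, b3⟩ := k1 b hb.1 hb.2
    refine ⟨![E a, E b], ?_, ?_, ?_, ?_⟩
    · intro i
      fin_cases i
      · exact a1
      · exact b1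
    · intro i
      fin_cases i
      · exact a2
      · exact b2
    · intro i j hij
      fin_cases i <;> fin_cases j
      · exact absurd rfl hij
      · exact hE3 a b hab
      · exact hE3 b a (Ne.symm hab)
      · exact absurd rfl hij
    · intro i
      fin_cases i
      · exact a3
      · exact b3
  have hu : ∀ (z : V) (i j : Fin 3), z ∈ E i → z ∈ E j → i = j := by
    intro z i j hi hj
    by_contra hcon
    exact (Finset.disjoint_left.1 (hE3 i j hcon)) hi hj
  have hd1 : ∀ i : Fin 3, ∃ a b : Fin 3, a ≠ i ∧ b ≠ i ∧ a ≠ b := by decide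
  have hd2 : ∀ i j : Fin 3, i ≠ j → ∃ c : Fin 3, c ≠ i ∧ c ≠ j := by decide
  by_cases h1 : ∃ i, x ∈ E i
  · obtain ⟨i, hi⟩ := h1
    by_cases h2 : ∃ j, j ≠ i ∧ y ∈ E j
    · obtain ⟨j, hji, hj⟩ := h2
      obtain ⟨c, hci, hcj⟩ := hd2 i j (Ne.symm hji)
      have hxc : x ∉ E c := fun h => hci (hu x c i h hi)
      have hyc : y ∉ E c := fun h => hcj (hu y c j h hj)
      have hxj : x ∉ E j := fun h => hji (hu x j i h hi)
      have hyi : y ∉ E i := fun h => hji (hu y j i hj h)
      obtain ⟨c1, c2, c3⟩ := k1 c hxc hyc
      have hdis : Disjoint (((E i ∪ E j).erase x) \ J) (E c) := by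
        rw [Finset.disjoint_left]
        intro e he hec
        rw [Finset.mem_sdiff, Finset.mem_erase, Finset.mem_union] at he
        rcases he.1.2 with h | h
        · exact hci (hu e c i hec h)
        · exact hcj (hu e c j hec h)
      have u1 : Disjoint (((E i ∪ E j).erase x) \ J) I := by
        rw [Finset.disjoint_left]
        intro e he heI
        rw [Finset.mem_sdiff, Finset.mem_erase, Finset.mem_union] at he
        rcases he.1.2 with h | h
        · exact (Finset.disjoint_left.1 (hE1 i)) h (Finset.mem_erase.2 ⟨he.1.1, heI⟩)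
        · exact (Finset.disjoint_left.1 (hE1 j)) h (Finset.mem_erase.2 ⟨he.1.1, heI⟩)
      have u2 : Disjoint (((E i ∪ E j).erase x) \ J) J := Finset.sdiff_disjoint
      have u3 : Mrg L x y ((((E i ∪ E j).erase x) \ J) ∪ J) := by
        rw [Finset.sdiff_union_self_eq_union]
        refine ⟨?_, fun _ => ?_⟩
        · refine hm _ _ ?_ (hE4 j)
          intro e he
          simp only [Finset.mem_union, Finset.mem_erase] at he ⊢
          rcases he with h | h
          · exact ⟨fun h' => hxj (h' ▸ h), Or.inl ⟨fun h' => hxj (h' ▸ h), Or.inr h⟩⟩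
          · exact ⟨fun h' => hxJ (h' ▸ h.2), Or.inr h.2⟩
        · refine hm _ _ ?_ (hE4 i)
          intro e he
          simp only [Finset.mem_union, Finset.mem_erase, Finset.mem_insert] at he ⊢
          rcases he with h | h
          · refine ⟨fun h' => hyi (h' ▸ h), ?_⟩
            by_cases hex : e = x
            · exact Or.inl hex
            · exact Or.inr (Or.inl ⟨hex, Or.inl h⟩)
          · exact ⟨h.1, Or.inr (Or.inr h.2)⟩
      refine ⟨![((E i ∪ E j).erase x) \ J, E c], ?_, ?_, ?_, ?_⟩
      · intro i'
        fin_cases i'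
        · exact u1
        · exact c1
      · intro i'
        fin_cases i'
        · exact u2
        · exact c2
      · intro i' j' hij
        fin_cases i' <;> fin_cases j'
        · exact absurd rfl hij
        · exact hdis
        · exact hdis.symm
        · exact absurd rfl hij
      · intro i'
        fin_cases i'
        · exact u3
        · exact c3
    · push Not at h2
      obtain ⟨a, b, ha, hb, hab⟩ := hd1 i
      exact k2 a b hab ⟨fun h => ha (hu x a i h hi), h2 a ha⟩ ⟨fun h => hb (hu x b i h hi), h2 b hb⟩
  · push Not at h1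
    by_cases h2 : ∃ j, y ∈ E j
    · obtain ⟨j, hj⟩ := h2
      obtain ⟨a, b, ha, hb, hab⟩ := hd1 j
      exact k2 a b hab ⟨h1 a, fun h => ha (hu y a j h hj)⟩ ⟨h1 b, fun h => hb (hu y b j h hj)⟩
    · push Not at h2
      exact k2 0 1 (by decide) ⟨h1 0, h2 0⟩ ⟨h1 1, h2 1⟩

end Pool.Agent.TRed
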