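import Pool.Agent.TRed.CaseD
import Pool.Agent.TRed.FracM
import Pool.Agent.TRed.Ext

set_option autoImplicit false

namespace Pool.Agent.TRed

open Finset

variable {V : Type} [Fintype V] [DecidableEq V] {L : Finset V → Prop} {x y : V}

/-- The minimal non-packing minor of the merged clutter. -/
lemma step (hm : Mono L)
    (hp : ∀ I J : Finset V, Disjoint I J → (I ∪ J).Nonempty → Pck L I J)
    (hxy : L {x, y}) (hne : x ≠ y) (hF : FracL L) (k : ℕ) (hk : 3 ≤ k)
    (htau : TauGe L ∅ ∅ (k + 1)) (hnu : ¬ NuGe L ∅ ∅ (k + 1)) :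
    ∃ (m : ℕ) (_ : m < Fintype.card V) (M : Finset (Fin m) → Prop), Mono M ∧ FracL M ∧
      ¬ Pck M ∅ ∅ ∧ (∀ I J : Finset (Fin m), Disjoint I J → (I ∪ J).Nonempty → Pck M I J) ∧
      (TauGe M ∅ ∅ 2 → NuGe M ∅ ∅ 2) := by
  classical
  -- three disjoint live sets
  have h3 : NuGe L ∅ ∅ 3 := by
    have h1 : NuGe L {x} ∅ k := by
      refine hp {x} ∅ (Finset.disjoint_empty_right _) ⟨x, by simp⟩ k (fun X _ _ hX => ?_)
      refine hm _ _ ?_ (htau (insert x X) (Finset.disjoint_empty_right _)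
        (Finset.disjoint_empty_right _) (by
          have := Finset.card_insert_le x X
          omega))
      rw [Finset.empty_union, Finset.insert_eq]
    obtain ⟨E, -, -, e3, e4⟩ := h1.le hk
    exact ⟨E, fun _ => Finset.disjoint_empty_right _, fun _ => Finset.disjoint_empty_right _,
      e3, e4⟩
  have h2 : NuGe L ∅ ∅ 2 := h3.le (by norm_num)
  have hm' : Mono (Mrg L x y) := Mrg.mono hm hxy hne
  have hF' : FracL (Mrg L x y) := fracM hm hxy hne hF
  have hnp : ¬ Pck (Mrg L x y) {x} ∅ := fun h =>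
    hnu (nuM hm hp h2 hxy hne (h k (tauM hm hne htau)))
  have hex : ∃ c, ∃ I J : Finset V, x ∈ I ∧ Disjoint I J ∧ ¬ Pck (Mrg L x y) I J ∧
      (I ∪ J)ᶜ.card = c :=
    ⟨_, {x}, ∅, Finset.mem_singleton_self x, Finset.disjoint_empty_right _, hnp, rfl⟩
  obtain ⟨I, J, hxI, hIJ, hIJp, hc⟩ := Nat.find_spec hex
  have hmin := fun c hc => Nat.find_min hex (m := c) hc
  set m := Nat.find hex with hmdef
  let ψ : (((I ∪ J)ᶜ : Finset V) : Type) ≃ Fin m := Finset.equivFinOfCardEq hc
  let φ : Fin m ↪ V := ψ.symm.toEmbedding.trans (Function.Embedding.subtype _)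
  have hφ : ∀ v, (∃ u, φ u = v) ↔ v ∉ I ∪ J := by
    intro v
    constructor
    · rintro ⟨u, rfl⟩
      exact Finset.mem_compl.1 (ψ.symm u).2
    · intro hv
      refine ⟨ψ ⟨v, Finset.mem_compl.2 hv⟩, ?_⟩
      show (ψ.symm (ψ ⟨v, Finset.mem_compl.2 hv⟩)).1 = v
      rw [Equiv.symm_apply_apply]
  have hmc : m < Fintype.card V := by
    rw [← hc, ← Finset.card_univ]
    apply Finset.card_lt_card
    rw [Finset.ssubset_iff_of_subset (Finset.subset_univ _)]
    exact ⟨x, Finset.mem_univ _, fun h => (Finset.mem_compl.1 h) (Finset.mem_union_left _ hxI)⟩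
  have ht : ∀ I1 J1 : Finset (Fin m), Pck (Mrg L x y) (I ∪ I1.map φ) (J ∪ J1.map φ) ↔
      Pck (LN (Mrg L x y) J φ) I1 J1 := fun I1 J1 => pck_transfer _ hIJ hφ I1 J1
  refine ⟨m, hmc, LN (Mrg L x y) J φ, LN.mono _ _ _ hm', frac_transfer _ hm' hIJ hφ hF', ?_, ?_,
    ?_⟩
  · intro h
    apply hIJp
    have h' := (ht ∅ ∅).2 h
    rwa [Finset.map_empty, Finset.union_empty, Finset.union_empty] at h'
  · intro I1 J1 hd1 hne1
    rw [← ht]
    by_contra hcon
    refine hmin (((I ∪ I1.map φ) ∪ (J ∪ J1.map φ))ᶜ.card) ?_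
      ⟨I ∪ I1.map φ, J ∪ J1.map φ, Finset.mem_union_left _ hxI, ?_, hcon, rfl⟩
    · refine lt_of_lt_of_eq (Finset.card_lt_card ?_) hc
      rw [Finset.ssubset_iff_of_subset]
      · obtain ⟨u, hu⟩ := hne1
        refine ⟨φ u, Finset.mem_compl.2 ((hφ _).1 ⟨u, rfl⟩), ?_⟩
        rw [Finset.mem_compl, not_not]
        rcases Finset.mem_union.1 hu with h | h
        · exact Finset.mem_union_left _
            (Finset.mem_union_right _ (Finset.mem_map.2 ⟨u, h, rfl⟩))
        · exact Finset.mem_union_right _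
            (Finset.mem_union_right _ (Finset.mem_map.2 ⟨u, h, rfl⟩))
      · apply Finset.compl_subset_compl.2
        exact Finset.union_subset_union Finset.subset_union_left Finset.subset_union_left
    · rw [Finset.disjoint_union_left, Finset.disjoint_union_right, Finset.disjoint_union_right]
      exact ⟨⟨hIJ, ((map_disj hφ J1).1).symm⟩, (map_disj hφ I1).2,
        (Finset.disjoint_map φ).2 hd1⟩
  · intro h
    have h4 := (tau_transfer (Mrg L x y) hIJ hφ ∅ ∅ 2).2 h
    rw [Finset.map_empty, Finset.union_empty, Finset.union_empty] at h4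
    have h5 := tRule hm hp h3 hxy hne hF I J hxI hIJ h4
    have h6 : NuGe (Mrg L x y) (I ∪ (∅ : Finset (Fin m)).map φ) (J ∪ (∅ : Finset (Fin m)).map φ)
        2 := by
      rw [Finset.map_empty, Finset.union_empty, Finset.union_empty]
      exact h5
    exact (nu_transfer (Mrg L x y) hφ ∅ ∅ 2).1 h6

end Pool.Agent.TRed
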